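import Pool.Agent.H48.CP.Lift

/-!
The pair `P'` obtained from a pair `P` by adding a new edge of weight two between the middle of the
`al`-edge `z, al z` and the middle of the `al`-edge `w, al w`, where `be z = w`; the colours are
exchanged on the path `s*, z, w, t*` (project CP, MP_472c72, `r ≥ 3`).
-/

namespace H21CK

open Finset H48CP
open scoped Classical

variable {U : Type*}

/-- the old ends -/
def emb (e : U × Bool) : Option U × Bool := (some e.1, e.2)

lemma emb_inj {e f : U × Bool} : emb e = emb f ↔ e = f := by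
  rcases e with ⟨u, i⟩
  rcases f with ⟨v, j⟩
  simp [emb]

@[simp] lemma emb_ne (e : U × Bool) (i : Bool) : emb e ≠ ((none : Option U), i) := by
  rcases e with ⟨u, j⟩
  simp [emb]

@[simp] lemma ne_emb (e : U × Bool) (i : Bool) : ((none : Option U), i) ≠ emb e :=
  fun h => emb_ne e i h.symm

@[simp] lemma mu_emb (e : U × Bool) : mu (emb e) = emb (mu e) := rfl

@[simp] lemma emb_fst (e : U × Bool) : (emb e).1 = some e.1 := rfl

/-- the first end of the new edge -/
def sS : Option U × Bool := (none, false)

/-- the second end of the new edge -/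
def tS : Option U × Bool := (none, true)

@[simp] lemma mu_sS : mu (sS : Option U × Bool) = tS := rfl
@[simp] lemma mu_tS : mu (tS : Option U × Bool) = sS := rfl

lemma cases_end (e : Option U × Bool) : e = sS ∨ e = tS ∨ ∃ f, e = emb f := by
  rcases e with ⟨_ | u, i⟩
  · cases i
    · exact Or.inl rfl
    · exact Or.inr (Or.inl rfl)
  · exact Or.inr (Or.inr ⟨(u, i), rfl⟩)

noncomputable def jal (P : Pr U) (z w : U × Bool) : Option U × Bool → Option U × Bool
  | (none, false) => emb (P.al z)
  | (none, true) => emb (P.al w)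
  | (some u, i) => if (u, i) = z then emb w else if (u, i) = w then emb z else
      if (u, i) = P.al z then sS else if (u, i) = P.al w then tS else emb (P.al (u, i))

noncomputable def jbe (P : Pr U) (z w : U × Bool) : Option U × Bool → Option U × Bool
  | (none, false) => emb z
  | (none, true) => emb w
  | (some u, i) => if (u, i) = z then sS else if (u, i) = w then tS else emb (P.be (u, i))

section

variable {P : Pr U} {z w : U × Bool}

@[simp] lemma jal_s : jal P z w sS = emb (P.al z) := rfl
@[simp] lemma jal_t : jal P z w tS = emb (P.al w) := rfl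
@[simp] lemma jbe_s : jbe P z w sS = emb z := rfl
@[simp] lemma jbe_t : jbe P z w tS = emb w := rfl

lemma jal_emb (e : U × Bool) : jal P z w (emb e) = if e = z then emb w else if e = w then emb z else
      if e = P.al z then sS else if e = P.al w then tS else emb (P.al e) := rfl

lemma jbe_emb (e : U × Bool) : jbe P z w (emb e) = if e = z then sS else if e = w then tS else
      emb (P.be e) := rfl

/-- the conditions under which the new pair is defined -/
structure JC (P : Pr U) (z w : U × Bool) : Prop where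
  ne : z ≠ w
  aw : P.al z ≠ w
  b : P.be z = w

lemma JC.bw (h : JC P z w) : P.be w = z := by rw [← h.b, P.be2]

lemma JC.az (h : JC P z w) : P.al w ≠ z := fun h1 => h.aw (by rw [← h1, P.al2])

lemma JC.aa (h : JC P z w) : P.al z ≠ P.al w := fun h1 => h.ne (by rw [← P.al2 z, h1, P.al2])

lemma jal_z (_h : JC P z w) : jal P z w (emb z) = emb w := by rw [jal_emb, if_pos rfl]

lemma jal_w (h : JC P z w) : jal P z w (emb w) = emb z := by
  rw [jal_emb, if_neg h.ne.symm, if_pos rfl]

lemma jal_az (h : JC P z w) : jal P z w (emb (P.al z)) = sS := by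
  rw [jal_emb, if_neg (P.al1 z), if_neg h.aw, if_pos rfl]

lemma jal_aw (h : JC P z w) : jal P z w (emb (P.al w)) = tS := by
  rw [jal_emb, if_neg h.az, if_neg (P.al1 w), if_neg h.aa.symm, if_pos rfl]

lemma jal_oth {e : U × Bool} (h1 : e ≠ z) (h2 : e ≠ w) (h3 : e ≠ P.al z) (h4 : e ≠ P.al w) :
    jal P z w (emb e) = emb (P.al e) := by
  rw [jal_emb, if_neg h1, if_neg h2, if_neg h3, if_neg h4]

lemma jbe_z (_h : JC P z w) : jbe P z w (emb z) = sS := by rw [jbe_emb, if_pos rfl]

lemma jbe_w (h : JC P z w) : jbe P z w (emb w) = tS := by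
  rw [jbe_emb, if_neg h.ne.symm, if_pos rfl]

lemma jbe_oth {e : U × Bool} (h1 : e ≠ z) (h2 : e ≠ w) :
    jbe P z w (emb e) = emb (P.be e) := by
  rw [jbe_emb, if_neg h1, if_neg h2]

lemma jal_invol (h : JC P z w) (e : Option U × Bool) : jal P z w (jal P z w e) = e := by
  rcases cases_end e with rfl | rfl | ⟨f, rfl⟩
  · rw [jal_s, jal_az h]
  · rw [jal_t, jal_aw h]
  · by_cases h1 : f = z
    · rw [h1, jal_z h, jal_w h]
    · by_cases h2 : f = w
      · rw [h2, jal_w h, jal_z h]
      · by_cases h3 : f = P.al z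
        · rw [h3, jal_az h, jal_s]
        · by_cases h4 : f = P.al w
          · rw [h4, jal_aw h, jal_t]
          · rw [jal_oth h1 h2 h3 h4, jal_oth, P.al2]
            · exact fun h5 => h3 (by rw [← h5, P.al2])
            · exact fun h5 => h4 (by rw [← h5, P.al2])
            · exact fun h5 => h1 (by rw [← P.al2 f, h5, P.al2])
            · exact fun h5 => h2 (by rw [← P.al2 f, h5, P.al2])

lemma jbe_invol (h : JC P z w) (e : Option U × Bool) : jbe P z w (jbe P z w e) = e := by
  rcases cases_end e with rfl | rfl | ⟨f, rfl⟩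
  · rw [jbe_s, jbe_z h]
  · rw [jbe_t, jbe_w h]
  · by_cases h1 : f = z
    · rw [h1, jbe_z h, jbe_s]
    · by_cases h2 : f = w
      · rw [h2, jbe_w h, jbe_t]
      · rw [jbe_oth h1 h2, jbe_oth, P.be2]
        · exact fun h5 => h2 (by rw [← P.be2 f, h5, h.b])
        · exact fun h5 => h1 (by rw [← P.be2 f, h5, h.bw])

lemma jal_ne (h : JC P z w) (e : Option U × Bool) : jal P z w e ≠ e := by
  rcases cases_end e with rfl | rfl | ⟨f, rfl⟩
  · rw [jal_s]; exact emb_ne _ _
  · rw [jal_t]; exact emb_ne _ _
  · by_cases h1 : f = z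
    · rw [h1, jal_z h]; exact fun h5 => h.ne (emb_inj.1 h5).symm
    · by_cases h2 : f = w
      · rw [h2, jal_w h]; exact fun h5 => h.ne (emb_inj.1 h5)
      · by_cases h3 : f = P.al z
        · rw [h3, jal_az h]; exact ne_emb _ _
        · by_cases h4 : f = P.al w
          · rw [h4, jal_aw h]; exact ne_emb _ _
          · rw [jal_oth h1 h2 h3 h4]
            exact fun h5 => P.al1 f (emb_inj.1 h5)

lemma jbe_ne (h : JC P z w) (e : Option U × Bool) : jbe P z w e ≠ e := by
  rcases cases_end e with rfl | rfl | ⟨f, rfl⟩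
  · rw [jbe_s]; exact emb_ne _ _
  · rw [jbe_t]; exact emb_ne _ _
  · by_cases h1 : f = z
    · rw [h1, jbe_z h]; exact ne_emb _ _
    · by_cases h2 : f = w
      · rw [h2, jbe_w h]; exact ne_emb _ _
      · rw [jbe_oth h1 h2]
        exact fun h5 => P.be1 f (emb_inj.1 h5)

/-- the new pair -/
noncomputable def JP (P : Pr U) (z w : U × Bool) (h : JC P z w) : Pr (Option U) where
  al := jal P z w
  be := jbe P z w
  al2 := jal_invol h
  be2 := jbe_invol h
  al1 := jal_ne h
  be1 := jbe_ne h
  p0 := tS
  q0 := tS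

end

/-- the place of the new edge -/
structure JD (P : Pr U) (r : ℕ) (ka kb : U × Bool → ℕ) (z w : U × Bool) : Prop where
  lev : Lev P r ka kb
  r3 : 3 ≤ r
  hz : z = P.p0 ∨ z = P.al P.p0
  hw : P.be z = w
  kw : ka w = 2
  kc : kb (P.al w) = 3

section

variable {P : Pr U} {r : ℕ} {ka kb : U × Bool → ℕ} {z w : U × Bool}

lemma JD.kaz (h : JD P r ka kb z w) : ka z = 0 := by
  rcases h.hz with h1 | h1
  · rw [h1, h.lev.p0]
  · rw [h1, h.lev.a_al, h.lev.p0]

lemma JD.kbz (h : JD P r ka kb z w) : kb z = 1 := by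
  have := h.lev.step z
  have := h.kaz
  omega

lemma JD.kbw (h : JD P r ka kb z w) : kb w = 1 := by
  rw [← h.hw, h.lev.b_be, h.kbz]

lemma JD.jc (h : JD P r ka kb z w) : JC P z w where
  ne := fun h1 => by
    have h2 := h.kaz
    have h3 := h.kw
    rw [h1] at h2
    omega
  aw := fun h1 => by
    have h2 := h.kaz
    have h3 := h.kw
    rw [← h1, h.lev.a_al] at h3
    omega
  b := h.hw

/-- criticality of the new pair for circuits inside `C_0 + C_1 + C_2` -/
theorem JD.crit (h : JD P r ka kb z w) (hC : P.Crit) {za zb : Option U × Bool → Prop}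
    (hA : (JP P z w h.jc).Alt za zb) (hza : ∀ e, za (emb e) → ka e = 0 ∨ ka e = 2)
    (hzb : ∀ e, zb (emb e) → kb e = 1) :
    ∃ Y g, (JP P z w h.jc).BrU za zb Y g ∧
      (g = none ∨ ∃ u, g = some u ∧ (ka (u, true) = 0 ∨ ka (u, true) = 2) ∧ kb (u, true) = 1) := by
  have hj := h.jc
  have ia : ∀ e, za (jal P z w e) ↔ za e := hA.ia
  have ib : ∀ e, zb (jbe P z w e) ↔ zb e := hA.ib
  have nt : ¬ za tS ∧ ¬ zb tS := ⟨hA.x, hA.y⟩
  have ns : ¬ za sS ∧ ¬ zb sS := by
    have := hA.mu sS
    rw [mu_sS] at this
    tauto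
  have naz : ¬ za (emb (P.al z)) := by
    rw [← ia, jal_az hj]; exact ns.1
  have naw : ¬ za (emb (P.al w)) := by
    rw [← ia, jal_aw hj]; exact nt.1
  have nbz : ¬ zb (emb z) := by
    rw [← ib, jbe_z hj]; exact ns.2
  have nbw : ¬ zb (emb w) := by
    rw [← ib, jbe_w hj]; exact nt.2
  have zw : za (emb w) ↔ za (emb z) := by
    rw [← ia (emb z), jal_z hj]
  have hAm : ∀ e, (za (emb (mu e)) ∨ zb (emb (mu e))) ↔ (za (emb e) ∨ zb (emb e)) := by
    intro e
    have := hA.mu (emb e)
    rwa [mu_emb] at this
  have hal : ∀ e, e ≠ z → e ≠ w → e ≠ P.al z → e ≠ P.al w →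
      (za (emb (P.al e)) ↔ za (emb e)) := by
    intro e h1 h2 h3 h4
    have := ia (emb e)
    rwa [jal_oth h1 h2 h3 h4] at this
  have hbe : ∀ e, e ≠ z → e ≠ w → (zb (emb (P.be e)) ↔ zb (emb e)) := by
    intro e h1 h2
    have := ib (emb e)
    rwa [jbe_oth h1 h2] at this
  -- the old circuits
  set ya : U × Bool → Prop := fun e => za (emb e) ∧ e ≠ z ∧ e ≠ w with hya
  set yb : U × Bool → Prop := fun e => zb (emb e) ∨ (za (emb z) ∧ (e = z ∨ e = w)) with hyb
  have hor : ∀ e, (ya e ∨ yb e) ↔ (za (emb e) ∨ zb (emb e)) := by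
    intro e
    rw [hya, hyb]
    by_cases h1 : e = z
    · subst h1
      simp
      tauto
    · by_cases h2 : e = w
      · subst h2
        simp [zw]
        tauto
      · simp [h1, h2]
  have hold : P.Alt ya yb := by
    refine ⟨?_, ?_, ?_, ?_, ?_, ?_, ?_⟩
    · intro e
      show (za (emb (P.al e)) ∧ P.al e ≠ z ∧ P.al e ≠ w) ↔ (za (emb e) ∧ e ≠ z ∧ e ≠ w)
      by_cases h1 : e = z
      · rw [h1]
        exact ⟨fun h2 => absurd h2.1 naz, fun h2 => absurd rfl h2.2.1⟩
      · by_cases h2 : e = w
        · rw [h2]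
          exact ⟨fun h3 => absurd h3.1 naw, fun h3 => absurd rfl h3.2.2⟩
        · by_cases h3 : e = P.al z
          · rw [h3]
            constructor
            · intro h4
              exact absurd (P.al2 z) h4.2.1
            · intro h4
              exact absurd h4.1 naz
          · by_cases h4 : e = P.al w
            · rw [h4]
              constructor
              · intro h5
                exact absurd (P.al2 w) h5.2.2
              · intro h5
                exact absurd h5.1 naw
            · rw [hal e h1 h2 h3 h4]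
              have h5 : P.al e ≠ z := fun h6 => h3 (by rw [← h6, P.al2])
              have h6 : P.al e ≠ w := fun h7 => h4 (by rw [← h7, P.al2])
              tauto
    · intro e
      show (zb (emb (P.be e)) ∨ (za (emb z) ∧ (P.be e = z ∨ P.be e = w))) ↔
        (zb (emb e) ∨ (za (emb z) ∧ (e = z ∨ e = w)))
      by_cases h1 : e = z
      · rw [h1, hj.b]
        tauto
      · by_cases h2 : e = w
        · rw [h2, hj.bw]
          tauto
        · rw [hbe e h1 h2]
          have h5 : P.be e ≠ z := fun h6 => h2 (by rw [← P.be2 e, h6, hj.b])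
          have h6 : P.be e ≠ w := fun h7 => h1 (by rw [← P.be2 e, h7, hj.bw])
          tauto
    · rintro e ⟨⟨h1, h2, h3⟩, h4 | h4⟩
      · exact hA.disj _ ⟨h1, h4⟩
      · tauto
    · intro e
      rw [hor, hor]
      exact hAm e
    · rintro ⟨h1, h2, h3⟩
      rcases h.hz with h4 | h4
      · exact h2 h4.symm
      · have h5 : P.al z = P.p0 := by rw [h4, P.al2]
        exact naz (h5 ▸ h1)
    · rintro (h1 | ⟨-, h1⟩)
      · have := hzb _ h1
        have := h.lev.q0
        have := h.r3
        omega
      · have h2 : kb P.q0 = 1 := by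
          rcases h1 with h1 | h1
          · rw [h1, h.kbz]
          · rw [h1, h.kbw]
        have := h.lev.q0
        have := h.r3
        omega
    · obtain ⟨e, he⟩ := hA.ne
      rcases cases_end e with rfl | rfl | ⟨f, rfl⟩
      · exact absurd he (by tauto)
      · exact absurd he (by tauto)
      · exact ⟨f, (hor f).2 he⟩
  have hyaK : ∀ e, ya e → ka e = 0 ∨ ka e = 2 := fun e he => hza e he.1
  have hybK : ∀ e, yb e → kb e = 1 := by
    rintro e (he | ⟨-, he | he⟩)
    · exact hzb e he
    · rw [he, h.kbz]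
    · rw [he, h.kbw]
  -- the new function
  have main : ∀ Y : U × Bool → ZMod 2, (∀ e, ¬ ya e → Y (P.al e) = Y e) →
      (∀ e, ¬ yb e → Y (P.be e) = Y e) →
      (∀ e, 2 < ka e ∨ 2 < kb e → Y (mu e) = Y e) →
      Y z = Y P.p0 ∧ Y w = Y P.q0 := by
    intro Y hYa hYb hm
    constructor
    · rcases h.hz with h4 | h4
      · rw [h4]
      · rw [h4]
        exact hYa _ hold.x
    · have h1 : Y (P.al w) = Y w := hYa w (fun h2 => h2.2.2 rfl)
      rw [← h1]
      have h2 := h.lev.side_y (Y := Y) (j₀ := 2)
        (fun e he => hYa e (fun h3 => by have := hyaK e h3; omega))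
        (fun e he => hYb e (fun h3 => by have := hybK e h3; omega)) hm 3 (by omega) h.r3
      exact h2.2 _ h.kc
  have ext : ∀ Y : U × Bool → ZMod 2, (∀ e, ¬ ya e → Y (P.al e) = Y e) →
      (∀ e, ¬ yb e → Y (P.be e) = Y e) → ∀ Y' : Option U × Bool → ZMod 2,
      (∀ e, Y' (emb e) = Y e) → Y' sS = Y z → Y' tS = Y w →
      (∀ e, ¬ za e → Y' (jal P z w e) = Y' e) ∧ (∀ e, ¬ zb e → Y' (jbe P z w e) = Y' e) := by
    intro Y hYa hYb Y' h1 h2 h3
    have haz : Y (P.al z) = Y z := hYa z (fun h4 => h4.2.1 rfl)
    have haw : Y (P.al w) = Y w := hYa w (fun h4 => h4.2.2 rfl)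
    constructor
    · intro e he
      rcases cases_end e with rfl | rfl | ⟨f, rfl⟩
      · rw [jal_s, h1, h2, haz]
      · rw [jal_t, h1, h3, haw]
      · by_cases k1 : f = z
        · subst k1
          rw [jal_z hj, h1, h1, ← hj.b]
          refine hYb f ?_
          rintro (h5 | h5)
          · exact nbz h5
          · exact he h5.1
        · by_cases k2 : f = w
          · subst k2
            rw [jal_w hj, h1, h1, ← hj.bw]
            refine hYb f ?_
            rintro (h5 | h5)
            · exact nbw h5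
            · exact he (zw.2 h5.1)
          · by_cases k3 : f = P.al z
            · subst k3
              rw [jal_az hj, h2, h1, haz]
            · by_cases k4 : f = P.al w
              · subst k4
                rw [jal_aw hj, h3, h1, haw]
              · rw [jal_oth k1 k2 k3 k4, h1, h1]
                exact hYa f (fun h5 => he h5.1)
    · intro e he
      rcases cases_end e with rfl | rfl | ⟨f, rfl⟩
      · rw [jbe_s, h1, h2]
      · rw [jbe_t, h1, h3]
      · by_cases k1 : f = z
        · subst k1
          rw [jbe_z hj, h1, h2]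
        · by_cases k2 : f = w
          · subst k2
            rw [jbe_w hj, h1, h3]
          · rw [jbe_oth k1 k2, h1, h1]
            refine hYb f ?_
            rintro (h5 | h5)
            · exact he h5
            · tauto
  rcases hC ya yb hold with ⟨Y, g, hB⟩ | ⟨Y, hB⟩
  · -- an old bridge
    have hgk : (ka (g, true) = 0 ∨ ka (g, true) = 2) ∧ kb (g, true) = 1 := by
      constructor
      · by_contra hcon
        refine h.lev.no_jump_a (u := g) (Y := Y) (fun e he => hB.ya e (fun h3 => ?_)) hB.ym hB.yh
        have := hyaK e h3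
        rw [he] at this
        exact hcon this
      · by_contra hcon
        refine h.lev.no_jump_b (u := g) (Y := Y) (fun e he => hB.yb e (fun h3 => ?_)) hB.ym hB.yh
        have := hybK e h3
        omega
    have hm : ∀ e, 2 < ka e ∨ 2 < kb e → Y (mu e) = Y e := by
      intro e he
      refine hB.ym e ?_
      rintro rfl
      rw [h.lev.ka_true, h.lev.kb_true] at hgk
      omega
    obtain ⟨e1, e2⟩ := main Y hB.ya hB.yb hm
    set Y' : Option U × Bool → ZMod 2 := fun e => match e with
      | (none, false) => Y z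
      | (none, true) => Y w
      | (some u, i) => Y (u, i) with hY'
    obtain ⟨f1, f2⟩ := ext Y hB.ya hB.yb Y' (fun e => rfl) rfl rfl
    refine ⟨Y', some g, ⟨f1, f2, ?_, ?_, ?_, rfl⟩, Or.inr ⟨g, rfl, hgk⟩⟩
    · intro e he
      rcases cases_end e with rfl | rfl | ⟨f, rfl⟩
      · show Y w = Y z
        rw [e1, e2, hB.yx]
      · show Y z = Y w
        rw [e1, e2, hB.yx]
      · show Y (mu f) = Y f
        exact hB.ym f (fun h5 => he (by rw [emb_fst, h5]))
    · exact hB.yh
    · intro i
      have h5 := hB.hz i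
      have h6 := hor (g, i)
      have h7 : emb (g, i) = ((some g, i) : Option U × Bool) := rfl
      rw [h7] at h6
      tauto
  · -- the old edge `e` is the bridge
    obtain ⟨e1, e2⟩ := main Y hB.ya hB.yb (fun e _ => hB.ym e)
    set Y' : Option U × Bool → ZMod 2 := fun e => match e with
      | (none, false) => Y z
      | (none, true) => Y w
      | (some u, i) => Y (u, i) with hY'
    obtain ⟨f1, f2⟩ := ext Y hB.ya hB.yb Y' (fun e => rfl) rfl rfl
    refine ⟨Y', none, ⟨f1, f2, ?_, ?_, ?_, rfl⟩, Or.inl rfl⟩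
    · intro e he
      rcases cases_end e with rfl | rfl | ⟨f, rfl⟩
      · exact absurd rfl he
      · exact absurd rfl he
      · exact hB.ym f
    · show Y w = Y z + 1
      rw [e1, e2, hB.yx, add_assoc, z2_add_self, add_zero]
    · intro i
      cases i
      · exact ns
      · exact nt

end

end H21CK
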