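import Pool.Agent.H48.CP.Sdo

/-!
Class K (MP_472c72): definitions for the combinatorial modules.
-/

namespace H21CK

open H48CP Finset
open scoped Classical

variable {V : Type*}

/-- no element of `S` lies between `a` and `b` in the first order -/
def ConsP (D : Sdo V) (S : Finset V) (a b : V) : Prop :=
  ∀ u ∈ S, ¬ (D.p a < D.p u ∧ D.p u < D.p b) ∧ ¬ (D.p b < D.p u ∧ D.p u < D.p a)

/-- no element of `S` lies between `a` and `b` in the second order -/
def ConsQ (D : Sdo V) (S : Finset V) (a b : V) : Prop :=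
  ∀ u ∈ S, ¬ (D.q a < D.q u ∧ D.q u < D.q b) ∧ ¬ (D.q b < D.q u ∧ D.q u < D.q a)

/-- a leaf pair: consecutive in both orders and reducible (a digon or a triangle) -/
structure LeafPair (D : Sdo V) (S : Finset V) (a b : V) : Prop where
  ha : a ∈ S
  hb : b ∈ S
  ne : a ≠ b
  cp : ConsP D S a b
  cq : ConsQ D S a b
  red : (D.G.adj a b ∧ (D.sg a ∨ D.sg b)) ∨ (¬ D.G.adj a b ∧ (¬ D.sg a ∨ ¬ D.sg b))

/-- both orders are injective on `S` -/
structure Inj (D : Sdo V) (S : Finset V) : Prop where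
  p : ∀ a ∈ S, ∀ b ∈ S, D.p a = D.p b → a = b
  q : ∀ a ∈ S, ∀ b ∈ S, D.q a = D.q b → a = b

/-- the cyclic orders of lengths `n`, `m` (positions in `[0,n)`, `[0,m)`) cut just before the
positions `c`, `d` -/
noncomputable def rot (D : Sdo V) (n m c d : ℤ) : Sdo V where
  p u := if D.p u < c then D.p u + n else D.p u
  q u := if D.q u < d then D.q u + m else D.q u
  sg := D.sg

/-- two cyclic orders with signs, sets `QA`, `QB` of critical cuts; a leaf pair has a marked gap -/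
structure Cyc (D : Sdo V) (S : Finset V) (n m : ℤ) (QA QB : Finset ℤ) : Prop where
  hp : ∀ u ∈ S, 0 ≤ D.p u ∧ D.p u < n
  hq : ∀ u ∈ S, 0 ≤ D.q u ∧ D.q u < m
  inj : Inj D S
  hQA : ∀ c ∈ QA, 0 ≤ c ∧ c < n
  hQB : ∀ d ∈ QB, 0 ≤ d ∧ d < m
  ax : ∀ c ∈ QA, ∀ d ∈ QB, SG.Ax True (rot D n m c d).G S
  leafless : ∀ c ∈ QA, ∀ d ∈ QB, ∀ a b, LeafPair (rot D n m c d) S a b →
    (∃ c' ∈ QA, ¬ ((rot D n m c d).p a < (rot D n m c d).p b ↔
      (rot D n m c' d).p a < (rot D n m c' d).p b)) ∨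
    (∃ d' ∈ QB, ¬ ((rot D n m c d).q a < (rot D n m c d).q b ↔
      (rot D n m c d').q a < (rot D n m c d').q b))

/-- two cuts of `Q` lie in different gaps of the first order -/
def TwoP (D : Sdo V) (S : Finset V) (Q : Finset ℤ) : Prop :=
  ∃ c ∈ Q, ∃ c' ∈ Q, c < c' ∧ (∃ u ∈ S, c ≤ D.p u ∧ D.p u < c') ∧
    ∃ u ∈ S, D.p u < c ∨ c' ≤ D.p u

/-- two cuts of `Q` lie in different gaps of the second order -/
def TwoQ (D : Sdo V) (S : Finset V) (Q : Finset ℤ) : Prop :=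
  ∃ c ∈ Q, ∃ c' ∈ Q, c < c' ∧ (∃ u ∈ S, c ≤ D.q u ∧ D.q u < c') ∧
    ∃ u ∈ S, D.q u < c ∨ c' ≤ D.q u

/-! Gap functions -/

/-- the number of elements of `T` before position `k` of the first order is even -/
def evP (D : Sdo V) (T : Finset V) (k : ℤ) : Prop := Even ((T.filter fun a => D.p a < k).card)

/-- the number of elements of `T` before position `k` of the second order is even -/
def evQ (D : Sdo V) (T : Finset V) (k : ℤ) : Prop := Even ((T.filter fun a => D.q a < k).card)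

/-- `T` defines an alternating even subgraph -/
structure Arc (D : Sdo V) (S T : Finset V) : Prop where
  sub : T ⊆ S
  ne : T.Nonempty
  ev : Even T.card
  sgn : ∀ u ∈ T, (D.sg u ↔ (evP D T (D.p u) ↔ evQ D T (D.q u)))
  hon : ∀ v ∈ S, v ∉ T → evP D T (D.p v) ∨ evQ D T (D.q v)

/-- the values `zA k`, `zB k` of a cut function on the gap just before position `k`; `o` is the
bridge (`none`: the edge `e`) -/
structure Fct (D : Sdo V) (S T : Finset V) (n m : ℤ) (zA zB : ℤ → Bool) (o : Option V) :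
    Prop where
  wA : zA 0 = zA n
  wB : zB 0 = zB m
  stepA : ∀ k, 0 ≤ k → k < n → evP D T k → evP D T (k + 1) → (∀ v, o = some v → D.p v ≠ k) →
    zA k = zA (k + 1)
  stepB : ∀ k, 0 ≤ k → k < m → evQ D T k → evQ D T (k + 1) → (∀ v, o = some v → D.q v ≠ k) →
    zB k = zB (k + 1)
  both : ∀ u ∈ S, u ∉ T → o ≠ some u → evP D T (D.p u) → evQ D T (D.q u) →
    zA (D.p u) = zB (D.q u)
  atT : ∀ u ∈ T, zA (if evP D T (D.p u) then D.p u else D.p u + 1) =
    zB (if evQ D T (D.q u) then D.q u else D.q u + 1)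
  non : o = none → zA 0 ≠ zB 0
  som : ∀ v, o = some v → v ∈ S ∧ v ∉ T ∧ evP D T (D.p v) ∧ evQ D T (D.q v) ∧ zA 0 = zB 0 ∧
    zA (D.p v) ≠ zA (D.p v + 1) ∧ zB (D.q v) ≠ zB (D.q v + 1) ∧
    (D.sg v ↔ zB (D.q v) = zA (D.p v + 1))

end H21CK
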