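import Pool.Agent.H21.CK.Seq
import Pool.Agent.H60.CPL.K
import Pool.Agent.H59.CP.Rot
import Pool.Agent.H13.CP.J2c
import Pool.Agent.H13.CP.ToLev

/-!
A chain has only two circuits (project CP, MP_472c72).
-/

namespace H21CK

open Finset H48CP H13CP H59CP
open scoped Classical

variable {U : Type*}

/-- the positions with a property -/
noncomputable def poss (n : ℕ) (Y : ℕ → Prop) : Finset ℤ :=
  ((range n).filter Y).image fun k : ℕ => (k : ℤ)

lemma mem_poss {n : ℕ} {Y : ℕ → Prop} {c : ℤ} :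
    c ∈ poss n Y ↔ ∃ k : ℕ, k < n ∧ Y k ∧ (k : ℤ) = c := by
  simp only [poss, mem_image, mem_filter, mem_range, and_assoc]

lemma natCast_mem_poss {n : ℕ} {Y : ℕ → Prop} {k : ℕ} (hk : k < n) :
    (k : ℤ) ∈ poss n Y ↔ Y k := by
  rw [mem_poss]
  constructor
  · rintro ⟨k', -, h1, h2⟩
    have : k' = k := by exact_mod_cast h2
    exact this ▸ h1
  · exact fun h => ⟨k, hk, h, rfl⟩

section

variable {P : Pr U} {r : ℕ} {ka kb : U × Bool → ℕ}

/-- two consecutive members as cyclic orders with critical cuts -/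
lemma cyc_of (hC : P.Crit) (hP : Cuts P) (h : Lev P r ka kb) (hr : 3 ≤ r) {i j : ℕ} (hj : j = 1)
    {n m : ℕ} {a b : ℕ → U × Bool} (ha : CutSeq P.al n a) (hb : CutSeq P.be m b)
    (hoa : ∀ u, occ n a u ↔ ka (u, true) = i) (hob : ∀ u, occ m b u ↔ kb (u, true) = j)
    {S : Finset U} (hS : ∀ u, u ∈ S ↔ ka (u, true) = i ∧ kb (u, true) = j) {YA YB : ℕ → Prop}
    (hYA : ∀ k, k < n → YA k → Lev.gapA P r kb i j (rotS n k a))
    (hYB : ∀ k, k < m → YB k → Lev.gapB P r ka i j (rotS m k b))
    (hmA : ∀ k, k < n → ¬ YA k → (a k).1 ∈ S) (hmB : ∀ k, k < m → ¬ YB k → (b k).1 ∈ S)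
    (hfA : ∀ k, k < n → ¬ YA k → ¬ (a k = P.p0 ∨ a k = P.al P.p0)) :
    Cyc (sdo n a m b) S n m (poss n YA) (poss m YB) := by
  have hSo : ∀ u ∈ S, occ n a u ∧ occ m b u := fun u hu =>
    ⟨(hoa u).2 ((hS u).1 hu).1, (hob u).2 ((hS u).1 hu).2⟩
  have hq : ∀ e : U × Bool, e.1 ∈ S → e ≠ P.q0 ∧ e ≠ P.be P.q0 := by
    intro e he
    have h1 : kb e = 1 := by
      rw [← h.kb_true, ((hS _).1 he).2, hj]
    constructor
    · intro h2
      rw [h2, h.q0] at h1
      omega
    · intro h2
      rw [h2, h.b_be, h.q0] at h1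
      omega
  have hA : Side P.al n a S (poss n YA) (fun e => e = P.p0 ∨ e = P.al P.p0) := by
    refine ⟨ha, fun u hu => (hSo u hu).1, ?_, ?_, ?_⟩
    · intro c hc
      obtain ⟨k, hk, -, rfl⟩ := mem_poss.1 hc
      omega
    · intro k hk hkQ
      exact hmA k hk (fun h1 => hkQ ((natCast_mem_poss hk).2 h1))
    · intro k hk hkQ
      exact hfA k hk (fun h1 => hkQ ((natCast_mem_poss hk).2 h1))
  have hB : Side P.be m b S (poss m YB) (fun e => e = P.q0 ∨ e = P.be P.q0) := by
    refine ⟨hb, fun u hu => (hSo u hu).2, ?_, ?_, ?_⟩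
    · intro c hc
      obtain ⟨k, hk, -, rfl⟩ := mem_poss.1 hc
      omega
    · intro k hk hkQ
      exact hmB k hk (fun h1 => hkQ ((natCast_mem_poss hk).2 h1))
    · intro k hk hkQ
      have h1 := hmB k hk (fun h1 => hkQ ((natCast_mem_poss hk).2 h1))
      have h2 := hq (b k) h1
      tauto
  refine ⟨?_, ?_, ⟨?_, ?_⟩, hA.hQ, hB.hQ, ?_, leafless_of hP hA hB⟩
  · intro u hu
    have := (posn_spec (hSo u hu).1).1
    show 0 ≤ (posn n a u : ℤ) ∧ (posn n a u : ℤ) < n
    omega
  · intro u hu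
    have := (posn_spec (hSo u hu).2).1
    show 0 ≤ (posn m b u : ℤ) ∧ (posn m b u : ℤ) < m
    omega
  · intro u hu v hv huv
    have huv' : (posn n a u : ℤ) = posn n a v := huv
    exact posn_inj (hSo u hu).1 (hSo v hv).1 (by exact_mod_cast huv')
  · intro u hu v hv huv
    have huv' : (posn m b u : ℤ) = posn m b v := huv
    exact posn_inj (hSo u hu).2 (hSo v hv).2 (by exact_mod_cast huv')
  · intro c hc d hd
    obtain ⟨k, hk, hk2, rfl⟩ := mem_poss.1 hc
    obtain ⟨l, hl, hl2, rfl⟩ := mem_poss.1 hd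
    rw [← ax_rot ha hb hk hl hSo]
    have hCom : Com n (rotS n k a) m (rotS m l b) S := by
      intro u
      rw [occ_rot hk, occ_rot hl, hoa, hob, hS]
    have hM := h.mark (cutSeq_rot ha hk) (cutSeq_rot hb hl)
      (i := i) (j := j) (fun u => by rw [occ_rot hk, hoa]) (fun u => by rw [occ_rot hl, hob])
      (hYA k hk hk2) (hYB l hl hl2) hCom
    exact (hon_of_crit hC hM (cutSeq_rot ha hk) (cutSeq_rot hb hl) hCom).ax

/-- `(b j)` is the first of its kind after `d`: the circuit arrives from the other kind -/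
lemma first_be (h : Lev P r ka kb) {m : ℕ} {b : ℕ → U × Bool} (hb : CutSeq P.be m b)
    (hob : ∀ u, occ m b u ↔ kb (u, true) = 1) {j d : ℕ} (hj : j < m) (hd : d < m)
    (hjk : ka (b j) = 0) (hdk : ka (b d) = 2)
    (hfirst : ∀ c, c < m → ka (b c) = 0 → c ≠ j →
      (if (j : ℤ) < d then (j : ℤ) + m else j) < if (c : ℤ) < d then (c : ℤ) + m else c) :
    ka (P.be (b j)) = 2 := by
  have hne : j ≠ d := by
    rintro rfl
    omega
  have hlast : m - 1 < m := Nat.sub_lt hb.pos one_pos
  have lv : ∀ k, k < m → ka (b k) ≠ 0 → ka (b k) = 2 := by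
    intro k hk h0
    have h1 : kb (b k) = 1 := by
      rw [← h.kb_true]
      exact (hob _).1 (occ_a hk)
    have := h.step (b k)
    omega
  rcases Nat.eq_zero_or_pos j with h0 | h0
  · subst h0
    have h1 : P.be (b 0) = mu (b (m - 1)) := by rw [← hb.close, P.be2]
    rw [h1, h.a_mu]
    apply lv _ hlast
    intro h2
    have h3 := hfirst (m - 1) hlast h2 (by omega)
    split_ifs at h3 <;> omega
  · have hj1 : j - 1 + 1 = j := Nat.sub_add_cancel h0
    have h1 : P.be (b j) = mu (b (j - 1)) := by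
      have := hb.step (j - 1) (by omega)
      rw [hj1] at this
      rw [← this, P.be2]
    rw [h1, h.a_mu]
    apply lv _ (by omega)
    intro h2
    have h3 := hfirst (j - 1) (by omega) h2 (by omega)
    split_ifs at h3 <;> omega

lemma last_be (h : Lev P r ka kb) {m : ℕ} {b : ℕ → U × Bool} (hb : CutSeq P.be m b)
    (hob : ∀ u, occ m b u ↔ kb (u, true) = 1) {j d : ℕ} (hj : j < m) (hd : d < m)
    (hjk : ka (b j) = 0) (hdk : ka (b d) = 2)
    (hlast' : ∀ c, c < m → ka (b c) = 0 → c ≠ j →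
      (if (c : ℤ) < d then (c : ℤ) + m else c) < if (j : ℤ) < d then (j : ℤ) + m else j) :
    ka (P.be (mu (b j))) = 2 := by
  have hne : j ≠ d := by
    rintro rfl
    omega
  have lv : ∀ k, k < m → ka (b k) ≠ 0 → ka (b k) = 2 := by
    intro k hk h0
    have h1 : kb (b k) = 1 := by
      rw [← h.kb_true]
      exact (hob _).1 (occ_a hk)
    have := h.step (b k)
    omega
  by_cases h0 : j + 1 < m
  · rw [hb.step j h0]
    apply lv _ h0
    intro h2
    have h3 := hlast' (j + 1) h0 h2 (by omega)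
    have h4 : ((j + 1 : ℕ) : ℤ) = j + 1 := by push_cast; rfl
    rw [h4] at h3
    by_cases h5 : j + 1 = d
    · rw [h5] at h2
      omega
    · split_ifs at h3 <;> omega
  · have h5 : j = m - 1 := by omega
    rw [h5, hb.close]
    apply lv _ hb.pos
    intro h2
    have h3 := hlast' 0 hb.pos h2 (by omega)
    have hd0 : d ≠ 0 := by
      rintro rfl
      omega
    push_cast at h3
    split_ifs at h3 <;> omega

/-- a chain has only two circuits -/
theorem r_lt [Fintype U] (hC : P.Crit) (hP : Cuts P) (h : Lev P r ka kb) : r < 3 := by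
  by_contra hr'
  have hr : 3 ≤ r := by omega
  -- ends of all kinds
  obtain ⟨eA, hA1, hA2⟩ : ∃ e, ka e = 2 ∧ kb e = 3 := by
    obtain ⟨e, he | he⟩ := h.ex 2 (by omega)
    · exact ⟨e, he⟩
    · obtain ⟨x, hx⟩ := h.odb e
      omega
  obtain ⟨eC, hC1, hC2⟩ : ∃ e, ka e = 2 ∧ kb e = 1 := by
    obtain ⟨e, he | he⟩ := h.ex 1 (by omega)
    · obtain ⟨x, hx⟩ := h.eva e
      omega
    · exact ⟨e, he.2, he.1⟩
  obtain ⟨eB, hB1, hB2⟩ : ∃ e, ka e = 0 ∧ kb e = 1 := by
    obtain ⟨e, he | he⟩ := h.ex 0 (by omega)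
    · exact ⟨e, he⟩
    · obtain ⟨x, hx⟩ := h.odb e
      omega
  have lvB : ∀ e, kb e = 1 → ka e ≠ 0 → ka e = 2 := by
    intro e h1 h0
    have := h.step e
    omega
  have lvA : ∀ e, ka e = 2 → kb e ≠ 3 → kb e = 1 := by
    intro e h1 h0
    have := h.step e
    omega
  set S2 : Finset U := univ.filter fun u => ka (u, true) = 2 ∧ kb (u, true) = 1 with hS2
  have mS2 : ∀ u, u ∈ S2 ↔ ka (u, true) = 2 ∧ kb (u, true) = 1 := by
    intro u
    rw [hS2, mem_filter]
    simp
  set S1 : Finset U := univ.filter fun u => ka (u, true) = 0 ∧ kb (u, true) = 1 with hS1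
  have mS1 : ∀ u, u ∈ S1 ↔ ka (u, true) = 0 ∧ kb (u, true) = 1 := by
    intro u
    rw [hS1, mem_filter]
    simp
  -- step A: two elements in `X_2`
  have hcard : S2.card = 2 := by
    obtain ⟨n, a, ha, ha0, hoa⟩ := h.seqa eA
    obtain ⟨m, b, hb, hb0, hob⟩ := h.seqb eB
    rw [hA1] at hoa
    rw [hB2] at hob
    have kaa : ∀ k, k < n → ka (a k) = 2 := fun k hk => by
      rw [← h.ka_true]; exact (hoa _).1 (occ_a hk)
    have kbb : ∀ k, k < m → kb (b k) = 1 := fun k hk => by
      rw [← h.kb_true]; exact (hob _).1 (occ_a hk)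
    have hcyc : Cyc (sdo n a m b) S2 n m (poss n fun k => kb (a k) = 3)
        (poss m fun k => ka (b k) = 0) := by
      refine cyc_of hC hP h hr (i := 2) (j := 1) rfl ha hb hoa hob mS2 ?_ ?_ ?_ ?_ ?_
      · intro k hk h1
        exact Or.inr ⟨rfl, by rw [rotS_zero hk, h1]⟩
      · intro k hk h1
        exact Or.inr ⟨rfl, by rw [rotS_zero hk, h1]⟩
      · intro k hk h1
        rw [mS2, h.ka_true, h.kb_true]
        exact ⟨kaa k hk, lvA _ (kaa k hk) h1⟩
      · intro k hk h1
        rw [mS2, h.ka_true, h.kb_true]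
        exact ⟨lvB _ (kbb k hk) h1, kbb k hk⟩
      · intro k hk _ h2
        have h3 := kaa k hk
        rcases h2 with h2 | h2
        · rw [h2, h.p0] at h3
          omega
        · rw [h2, h.a_al, h.p0] at h3
          omega
    have hP2 : TwoP (sdo n a m b) S2 (poss n fun k => kb (a k) = 3) := by
      obtain ⟨c, c', i, j, h1, h2, h3, h4, h5, h6, h7, h8, h9, h10⟩ :=
        two_gaps P.al2 ha (Y := fun e => kb e = 3)
          (fun e => by show kb (mu e) = 3 ↔ kb e = 3; rw [h.b_mu]) (by rw [ha0]; exact hA2)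
          (by
            have ho : occ n a eC.1 := (hoa _).2 (by rw [h.ka_true]; exact hC1)
            obtain ⟨k, hk, hk2⟩ := ho
            refine ⟨k, hk, ?_⟩
            show ¬ kb (a k) = 3
            rw [← h.kb_true, hk2, h.kb_true, hC2]
            decide)
          (no_cut_a hP h hr hoa)
      have mi : (a i).1 ∈ S2 := by
        rw [mS2, h.ka_true, h.kb_true]
        exact ⟨kaa i (by omega), lvA _ (kaa i (by omega)) h7⟩
      have mj : (a j).1 ∈ S2 := by
        rw [mS2, h.ka_true, h.kb_true]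
        exact ⟨kaa j h8, lvA _ (kaa j h8) h9⟩
      have pi := posn_eq ha (show i < n by omega)
      have pj := posn_eq ha h8
      refine ⟨c, mem_poss.2 ⟨c, by omega, h3, rfl⟩, c', mem_poss.2 ⟨c', h2, h4, rfl⟩,
        by exact_mod_cast h1, ⟨_, mi, ?_⟩, ⟨_, mj, ?_⟩⟩
      · show (c : ℤ) ≤ posn n a (a i).1 ∧ (posn n a (a i).1 : ℤ) < c'
        rw [pi]
        omega
      · show (posn n a (a j).1 : ℤ) < c ∨ (c' : ℤ) ≤ posn n a (a j).1
        rw [pj]
        omega
    have hQ2 : TwoQ (sdo n a m b) S2 (poss m fun k => ka (b k) = 0) := by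
      obtain ⟨c, c', i, j, h1, h2, h3, h4, h5, h6, h7, h8, h9, h10⟩ :=
        two_gaps P.be2 hb (Y := fun e => ka e = 0)
          (fun e => by show ka (mu e) = 0 ↔ ka e = 0; rw [h.a_mu]) (by rw [hb0]; exact hB1)
          (by
            have ho : occ m b eC.1 := (hob _).2 (by rw [h.kb_true]; exact hC2)
            obtain ⟨k, hk, hk2⟩ := ho
            refine ⟨k, hk, ?_⟩
            show ¬ ka (b k) = 0
            rw [← h.ka_true, hk2, h.ka_true, hC1]
            decide)
          (no_cut_b hP h hr hob)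
      have mi : (b i).1 ∈ S2 := by
        rw [mS2, h.ka_true, h.kb_true]
        exact ⟨lvB _ (kbb i (by omega)) h7, kbb i (by omega)⟩
      have mj : (b j).1 ∈ S2 := by
        rw [mS2, h.ka_true, h.kb_true]
        exact ⟨lvB _ (kbb j h8) h9, kbb j h8⟩
      have pi := posn_eq hb (show i < m by omega)
      have pj := posn_eq hb h8
      refine ⟨c, mem_poss.2 ⟨c, by omega, h3, rfl⟩, c', mem_poss.2 ⟨c', h2, h4, rfl⟩,
        by exact_mod_cast h1, ⟨_, mi, ?_⟩, ⟨_, mj, ?_⟩⟩
      · show (c : ℤ) ≤ posn m b (b i).1 ∧ (posn m b (b i).1 : ℤ) < c'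
        rw [pi]
        omega
      · show (posn m b (b j).1 : ℤ) < c ∨ (c' : ℤ) ≤ posn m b (b j).1
        rw [pj]
        omega
    exact k1 hcyc hP2 hQ2
  -- step B: an end of `f_s` which is joined to `X_2`
  obtain ⟨z, hz, hzw⟩ : ∃ z, (z = P.p0 ∨ z = P.al P.p0) ∧ ka (P.be z) = 2 := by
    obtain ⟨n, a, ha, ha0, hoa⟩ := h.seqa P.p0
    obtain ⟨m, b, hb, hb0, hob⟩ := h.seqb eC
    rw [h.p0] at hoa
    rw [hC2] at hob
    have kaa : ∀ k, k < n → ka (a k) = 0 := fun k hk => by
      rw [← h.ka_true]; exact (hoa _).1 (occ_a hk)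
    have kbb : ∀ k, k < m → kb (b k) = 1 := fun k hk => by
      rw [← h.kb_true]; exact (hob _).1 (occ_a hk)
    have hlast : n - 1 < n := Nat.sub_lt ha.pos one_pos
    have hal0 : mu (a (n - 1)) = P.al P.p0 := by
      have := ha.close
      rw [ha0] at this
      rw [← this, P.al2]
    have hcyc : Cyc (sdo n a m b) S1 n m (poss n fun k => k = 0)
        (poss m fun k => ka (b k) = 2) := by
      refine cyc_of hC hP h hr (i := 0) (j := 1) rfl ha hb hoa hob mS1 ?_ ?_ ?_ ?_ ?_
      · intro k hk h1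
        refine Or.inl ⟨rfl, Or.inl ⟨rfl, Or.inl ?_⟩⟩
        rw [rotS_zero hk, h1, ha0]
      · intro k hk h1
        exact Or.inl ⟨rfl, Or.inr (by rw [rotS_zero hk, h1])⟩
      · intro k hk h1
        rw [mS1, h.ka_true, h.kb_true]
        have h2 := kaa k hk
        have := h.step (a k)
        exact ⟨h2, by omega⟩
      · intro k hk h1
        rw [mS1, h.ka_true, h.kb_true]
        have h2 := kbb k hk
        have := h.step (b k)
        exact ⟨by omega, h2⟩
      · intro k hk h1 h2
        rcases h2 with h2 | h2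
        · rw [← ha0] at h2
          exact h1 (ha.inj _ _ hk ha.pos (by rw [h2]))
        · rw [← hal0] at h2
          have h3 : k = n - 1 := ha.inj _ _ hk hlast (by rw [h2, mu_fst])
          rw [h3] at h2
          exact mu_ne _ h2.symm
    have hQ0 : (poss n fun k => k = 0) = {0} := by
      ext c
      rw [mem_poss, mem_singleton]
      constructor
      · rintro ⟨k, -, rfl, rfl⟩
        rfl
      · rintro rfl
        exact ⟨0, ha.pos, rfl, rfl⟩
    rw [hQ0] at hcyc
    have hQ2 : TwoQ (sdo n a m b) S1 (poss m fun k => ka (b k) = 2) := by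
      obtain ⟨c, c', i, j, h1, h2, h3, h4, h5, h6, h7, h8, h9, h10⟩ :=
        two_gaps P.be2 hb (Y := fun e => ¬ ka e = 0)
          (fun e => by show ¬ ka (mu e) = 0 ↔ ¬ ka e = 0; rw [h.a_mu])
          (by rw [hb0, hC1]; decide)
          (by
            have ho : occ m b eB.1 := (hob _).2 (by rw [h.kb_true]; exact hB2)
            obtain ⟨k, hk, hk2⟩ := ho
            refine ⟨k, hk, ?_⟩
            show ¬ ¬ ka (b k) = 0
            rw [← h.ka_true, hk2, h.ka_true, hB1]
            simp)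
          (fun u u' hv => no_cut_b hP h hr hob u u' (fun v k1 k2 k3 k4 k5 =>
            not_iff_not.1 (hv v k1 k2 k3 k4 k5)))
      have mi : (b i).1 ∈ S1 := by
        rw [mS1, h.ka_true, h.kb_true]
        exact ⟨not_not.1 h7, kbb i (by omega)⟩
      have mj : (b j).1 ∈ S1 := by
        rw [mS1, h.ka_true, h.kb_true]
        exact ⟨not_not.1 h9, kbb j h8⟩
      have pi := posn_eq hb (show i < m by omega)
      have pj := posn_eq hb h8
      refine ⟨c, mem_poss.2 ⟨c, by omega, lvB _ (kbb c (by omega)) h3, rfl⟩, c',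
        mem_poss.2 ⟨c', h2, lvB _ (kbb c' h2) h4, rfl⟩,
        by exact_mod_cast h1, ⟨_, mi, ?_⟩, ⟨_, mj, ?_⟩⟩
      · show (c : ℤ) ≤ posn m b (b i).1 ∧ (posn m b (b i).1 : ℤ) < c'
        rw [pi]
        omega
      · show (posn m b (b j).1 : ℤ) < c ∨ (c' : ℤ) ≤ posn m b (b j).1
        rw [pj]
        omega
    obtain ⟨l, hl, d, hd, hcase⟩ := k0 hcyc hQ2
    obtain ⟨d', hd', hd2, rfl⟩ := mem_poss.1 hd
    have hlo : occ n a l ∧ occ m b l := by
      rw [hoa, hob]
      exact (mS1 l).1 hl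
    obtain ⟨pa, pa'⟩ := posn_spec hlo.1
    obtain ⟨pb, pb'⟩ := posn_spec hlo.2
    have hlk : ka (b (posn m b l)) = 0 := by
      rw [← h.ka_true, pb']
      exact ((mS1 l).1 hl).1
    -- all elements of `C_0` are in `S1`
    have memA : ∀ k, k < n → (a k).1 ∈ S1 := by
      intro k hk
      rw [mS1, h.ka_true, h.kb_true]
      have h2 := kaa k hk
      have := h.step (a k)
      exact ⟨h2, by omega⟩
    have memB : ∀ k, k < m → ka (b k) = 0 → (b k).1 ∈ S1 := by
      intro k hk h1
      rw [mS1, h.ka_true, h.kb_true]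
      exact ⟨h1, kbb k hk⟩
    have first0 : (∀ c ∈ S1, c ≠ l → (sdo n a m b).p l < (sdo n a m b).p c) → posn n a l = 0 := by
      intro h1
      by_contra h2
      have h3 : (a 0).1 ≠ l := by
        intro h4
        apply h2
        rw [← h4]
        exact posn_eq ha ha.pos
      have h4 := h1 _ (memA 0 ha.pos) h3
      have h5 : (posn n a l : ℤ) < (posn n a (a 0).1 : ℤ) := h4
      rw [posn_eq ha ha.pos] at h5
      omega
    have last0 : (∀ c ∈ S1, c ≠ l → (sdo n a m b).p c < (sdo n a m b).p l) →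
        posn n a l = n - 1 := by
      intro h1
      by_contra h2
      have h3 : (a (n - 1)).1 ≠ l := by
        intro h4
        apply h2
        rw [← h4]
        exact posn_eq ha hlast
      have h4 := h1 _ (memA _ hlast) h3
      have h5 : (posn n a (a (n - 1)).1 : ℤ) < (posn n a l : ℤ) := h4
      rw [posn_eq ha hlast] at h5
      omega
    have firstB : (∀ c ∈ S1, c ≠ l → (rot (sdo n a m b) n m 0 d').q l <
        (rot (sdo n a m b) n m 0 d').q c) → ka (P.be (b (posn m b l))) = 2 := by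
      intro h1
      refine first_be h hb hob pb hd' hlk hd2 ?_
      intro c hc hck hcj
      have h2 := h1 _ (memB c hc hck) (by
        intro h3
        apply hcj
        rw [← h3]
        exact (posn_eq hb hc).symm)
      have h3 : (if (posn m b l : ℤ) < d' then (posn m b l : ℤ) + m else posn m b l) <
        if (posn m b (b c).1 : ℤ) < d' then (posn m b (b c).1 : ℤ) + m else posn m b (b c).1 := h2
      rw [posn_eq hb hc] at h3
      exact h3
    have lastB : (∀ c ∈ S1, c ≠ l → (rot (sdo n a m b) n m 0 d').q c <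
        (rot (sdo n a m b) n m 0 d').q l) → ka (P.be (mu (b (posn m b l)))) = 2 := by
      intro h1
      refine last_be h hb hob pb hd' hlk hd2 ?_
      intro c hc hck hcj
      have h2 := h1 _ (memB c hc hck) (by
        intro h3
        apply hcj
        rw [← h3]
        exact (posn_eq hb hc).symm)
      have h3 : (if (posn m b (b c).1 : ℤ) < d' then (posn m b (b c).1 : ℤ) + m else
        posn m b (b c).1) < if (posn m b l : ℤ) < d' then (posn m b l : ℤ) + m else
          posn m b l := h2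
      rw [posn_eq hb hc] at h3
      exact h3
    have sgl : (sdo n a m b).sg l ↔ a (posn n a l) ≠ b (posn m b l) := Iff.rfl
    have two : b (posn m b l) = a (posn n a l) ∨ b (posn m b l) = mu (a (posn n a l)) :=
      eq_or_mu (by rw [pb', pa'])
    rcases hcase with ⟨h1, h2⟩ | ⟨h1, h2⟩
    · have h3 := first0 h1
      refine ⟨P.p0, Or.inl rfl, ?_⟩
      rw [sgl, h3, ha0] at h2
      rw [h3, ha0] at two
      rcases h2 with ⟨h4, h5⟩ | ⟨h4, h5⟩
      · rw [not_not.1 h4]
        exact firstB h5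
      · rcases two with h6 | h6
        · exact absurd h6.symm h4
        · have h7 := lastB h5
          rwa [h6, mu_mu] at h7
    · have h3 := last0 h1
      refine ⟨P.al P.p0, Or.inr rfl, ?_⟩
      rw [sgl, h3] at h2
      rw [h3] at two
      rcases h2 with ⟨h4, h5⟩ | ⟨h4, h5⟩
      · have h7 := lastB h5
        rw [← not_not.1 h4, hal0] at h7
        exact h7
      · rcases two with h6 | h6
        · exact absurd h6.symm h4
        · have h7 := firstB h5
          rwa [h6, hal0] at h7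
  have hkz : ka z = 0 := by
    rcases hz with h1 | h1
    · rw [h1, h.p0]
    · rw [h1, h.a_al, h.p0]
  have hbz : kb z = 1 := by
    have := h.step z
    omega
  have hbw : kb (P.be z) = 1 := by rw [h.b_be, hbz]
  -- step C: the gap of `C_2` at `w` is marked
  have hkc : kb (P.al (P.be z)) = 3 := by
    by_contra hne
    obtain ⟨n, a, ha, ha0, hoa⟩ := h.seqa (P.be z)
    rw [hzw] at hoa
    have kaa : ∀ k, k < n → ka (a k) = 2 := fun k hk => by
      rw [← h.ka_true]; exact (hoa _).1 (occ_a hk)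
    have hlast : n - 1 < n := Nat.sub_lt ha.pos one_pos
    have hal : mu (a (n - 1)) = P.al (P.be z) := by
      have := ha.close
      rw [ha0] at this
      rw [← this, P.al2]
    have hl1 : kb (a (n - 1)) = 1 := by
      apply lvA _ (kaa _ hlast)
      rw [← h.b_mu, hal]
      exact hne
    obtain ⟨c, c', i, j, h1, h2, h3, h4, h5, h6, h7, h8, h9, h10⟩ :=
      two_gaps P.al2 ha (Y := fun e => ¬ kb e = 3)
        (fun e => by show ¬ kb (mu e) = 3 ↔ ¬ kb e = 3; rw [h.b_mu])
        (by rw [ha0, hbw]; decide)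
        (by
          have ho : occ n a eA.1 := (hoa _).2 (by rw [h.ka_true]; exact hA1)
          obtain ⟨k, hk, hk2⟩ := ho
          refine ⟨k, hk, ?_⟩
          show ¬ ¬ kb (a k) = 3
          rw [← h.kb_true, hk2, h.kb_true, hA2]
          simp)
        (fun u u' hv => no_cut_a hP h hr hoa u u' (fun v k1 k2 k3 k4 k5 =>
          not_iff_not.1 (hv v k1 k2 k3 k4 k5)))
    have hmem : ∀ k, k < n → kb (a k) = 1 → (a k).1 ∈ S2 := by
      intro k hk h11
      rw [mS2, h.ka_true, h.kb_true]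
      exact ⟨kaa k hk, h11⟩
    have m0 : (a 0).1 ∈ S2 := hmem 0 ha.pos (by rw [ha0]; exact hbw)
    have m1 : (a (n - 1)).1 ∈ S2 := hmem _ hlast hl1
    have hn : 0 ≠ n - 1 := by omega
    have hne01 : (a 0).1 ≠ (a (n - 1)).1 := fun h11 => hn (ha.inj _ _ ha.pos hlast h11)
    have hS2eq : S2 = {(a 0).1, (a (n - 1)).1} := by
      symm
      apply eq_of_subset_of_card_le
      · intro x hx
        rcases mem_insert.1 hx with h11 | h11
        · rw [h11]; exact m0
        · rw [mem_singleton.1 h11]; exact m1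
      · rw [hcard, card_pair hne01]
    have hpos : ∀ k, k < n → kb (a k) = 1 → k = 0 ∨ k = n - 1 := by
      intro k hk h11
      have h12 := hmem k hk h11
      rw [hS2eq, mem_insert, mem_singleton] at h12
      rcases h12 with h12 | h12
      · exact Or.inl (ha.inj _ _ hk ha.pos h12)
      · exact Or.inr (ha.inj _ _ hk hlast h12)
    have hc1 := hpos c (by omega) (lvA _ (kaa c (by omega)) h3)
    have hc2 := hpos c' h2 (lvA _ (kaa c' h2) h4)
    have h11 : kb (a j) = 3 := not_not.1 h9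
    have h12 : j = n - 1 := by omega
    rw [h12, hl1] at h11
    omega
  -- step D
  have hJD : JD P r ka kb z (P.be z) := ⟨h, hr, hz, rfl, hzw, hkc⟩
  obtain ⟨n0, n2, m1, a0, a2, b1, hs⟩ := exists_JS hJD
  have hlast : m1 - 1 < m1 := Nat.sub_lt hs.c1.pos one_pos
  have kbb : ∀ k, k < m1 → kb (b1 k) = 1 := fun k hk => by
    rw [← h.kb_true]; exact (hs.o1 _).1 (occ_a hk)
  obtain ⟨c, c', i, j, h1, h2, h3, h4, h5, h6, h7, h8, h9, h10⟩ :=
    two_gaps P.be2 hs.c1 (Y := fun e => ka e = 0)
      (fun e => by show ka (mu e) = 0 ↔ ka e = 0; rw [h.a_mu]) (by rw [hs.s1]; exact hkz)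
      (by
        have ho : occ m1 b1 eC.1 := (hs.o1 _).2 (by rw [h.kb_true]; exact hC2)
        obtain ⟨k, hk, hk2⟩ := ho
        refine ⟨k, hk, ?_⟩
        show ¬ ka (b1 k) = 0
        rw [← h.ka_true, hk2, h.ka_true, hC1]
        decide)
      (no_cut_b hP h hr hs.o1)
  have hw : (b1 (m1 - 1)).1 = (P.be z).1 := by
    have h11 := hs.c1.close
    rw [hs.s1] at h11
    have h12 : mu (b1 (m1 - 1)) = P.be z := by rw [← h11, P.be2]
    rw [← h12, mu_fst]
  have hi : i < m1 := by omega
  have hbef := JS.before hJD hC hs (a := (b1 i).1) (c := (b1 c').1)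
    (by rw [h.ka_true]; exact lvB _ (kbb i hi) h7) (by rw [h.kb_true]; exact kbb i hi)
    (by rw [h.ka_true]; exact h4) (by rw [h.kb_true]; exact kbb c' h2)
    (by
      rw [← hw]
      intro h11
      have := hs.c1.inj _ _ hi hlast h11
      omega)
  rw [posn_eq hs.c1 h2, posn_eq hs.c1 hi] at hbef
  omega

end

end H21CK
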