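import Pool.Agent.H48.CP.Lift

/-!
Marked gaps of a cut circuit (project CP, MP_472c72).
-/

namespace H21CK

open Finset H48CP
open scoped Classical

variable {U : Type*}

/-- if the edges of a circuit between a set and its complement are not only two, then there are
two elements of the set which are separated by elements off the set on both sides -/
theorem two_gaps {σ : U × Bool → U × Bool} (hσ : ∀ e, σ (σ e) = e) {n : ℕ} {a : ℕ → U × Bool}
    (ha : CutSeq σ n a) {Y : U × Bool → Prop} (hY : ∀ e, Y (mu e) ↔ Y e) (h0 : Y (a 0))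
    (hN : ∃ i, i < n ∧ ¬ Y (a i))
    (hcut : ∀ u u', ¬ ∀ v : U × Bool, occ n a v.1 → v ≠ u → v ≠ σ u → v ≠ u' → v ≠ σ u' →
      (Y v ↔ Y (σ v))) :
    ∃ c c' i j, c < c' ∧ c' < n ∧ Y (a c) ∧ Y (a c') ∧ c ≤ i ∧ i < c' ∧ ¬ Y (a i) ∧ j < n ∧
      ¬ Y (a j) ∧ (j < c ∨ c' ≤ j) := by
  by_contra hcon
  -- the first and the last position off `Y`
  have hN' : ∃ i, i < n ∧ ¬ Y (a i) := hN
  obtain ⟨k1, hk1, hk1'⟩ : ∃ k1, (k1 < n ∧ ¬ Y (a k1)) ∧ ∀ k < k1, ¬ (k < n ∧ ¬ Y (a k)) :=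
    ⟨Nat.find hN, Nat.find_spec hN, fun k hk => Nat.find_min hN hk⟩
  obtain ⟨k2, hk2, hk2'⟩ : ∃ k2, (k2 < n ∧ ¬ Y (a k2)) ∧ ∀ k, k2 < k → k < n → Y (a k) := by
    have hne : ((range n).filter fun i => ¬ Y (a i)).Nonempty := by
      obtain ⟨i, hi, hi'⟩ := hN
      exact ⟨i, mem_filter.2 ⟨mem_range.2 hi, hi'⟩⟩
    refine ⟨((range n).filter fun i => ¬ Y (a i)).max' hne, ?_, ?_⟩
    · have := max'_mem _ hne
      rw [mem_filter, mem_range] at this
      exact this
    · intro k hk hkn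
      by_contra hc
      have := le_max' ((range n).filter fun i => ¬ Y (a i)) k (mem_filter.2 ⟨mem_range.2 hkn, hc⟩)
      omega
  have k10 : 0 < k1 := by
    rcases Nat.eq_zero_or_pos k1 with h | h
    · exact absurd (h ▸ h0) hk1.2
    · exact h
  have k12 : k1 ≤ k2 := by
    by_contra hlt
    exact hk1.2 (hk2' k1 (by omega) hk1.1)
  have hmid : ∀ k, k1 ≤ k → k ≤ k2 → ¬ Y (a k) := by
    intro k h1 h2 hk
    have hne1 : k ≠ k1 := fun h => hk1.2 (h ▸ hk)
    exact hcon ⟨0, k, k1, k2, by omega, by omega, h0, hk, by omega, by omega, hk1.2, hk2.1, hk2.2,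
      Or.inr h2⟩
  have hlow : ∀ k, k < k1 → Y (a k) := by
    intro k hk
    by_contra hc
    exact hk1' k hk ⟨by omega, hc⟩
  have key : ∀ k, k < n → (Y (a k) ↔ (k < k1 ∨ k2 < k)) := by
    intro k hk
    constructor
    · intro h
      by_contra hc
      exact hmid k (by omega) (by omega) h
    · rintro (h | h)
      · exact hlow k h
      · exact hk2' k h hk
  have hlast : n - 1 < n := Nat.sub_lt ha.pos one_pos
  -- the step from a position to the next
  have hstep : ∀ k, k + 1 < n → (Y (mu (a k)) ↔ Y (a (k + 1))) ∨ k + 1 = k1 ∨ k = k2 := by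
    intro k hk
    rw [hY, key k (by omega), key (k + 1) hk]
    omega
  have hclose : (Y (mu (a (n - 1))) ↔ Y (a 0)) ∨ n - 1 = k2 := by
    rw [hY, key (n - 1) hlast, key 0 ha.pos]
    omega
  apply hcut (mu (a (k1 - 1))) (mu (a k2))
  have hu : σ (mu (a (k1 - 1))) = a k1 := by
    have := ha.step (k1 - 1) (by omega)
    rwa [Nat.sub_add_cancel k10] at this
  intro v hv h1 h2 h3 h4
  rw [hu] at h2
  have hvc := end_cases hv
  obtain ⟨hp, -⟩ := posn_spec hv
  set i := posn n a v.1 with hi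
  rcases hvc with h | h
  · -- `v` is entered
    rw [h] at h1 h2 h3 h4 ⊢
    rcases Nat.eq_zero_or_pos i with hi0 | hi0
    · rw [hi0] at h4 ⊢
      have hs : σ (a 0) = mu (a (n - 1)) := by rw [← ha.close, hσ]
      rw [hs]
      rcases hclose with h5 | h5
      · exact h5.symm
      · exfalso
        apply h4
        rw [← h5, ha.close]
    · have hi1 : i - 1 + 1 = i := Nat.sub_add_cancel hi0
      have hs : σ (a i) = mu (a (i - 1)) := by
        have := ha.step (i - 1) (by omega)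
        rw [hi1] at this
        rw [← this, hσ]
      rw [hs]
      rcases hstep (i - 1) (by omega) with h5 | h5 | h5
      · rw [hi1] at h5
        exact h5.symm
      · exfalso
        apply h2
        rw [← h5, hi1]
      · exfalso
        apply h4
        have := ha.step (i - 1) (by omega)
        rw [← h5, this, hi1]
  · -- `v` is left
    rw [h] at h1 h2 h3 h4 ⊢
    by_cases hin : i + 1 < n
    · rw [ha.step i hin]
      rcases hstep i hin with h5 | h5 | h5
      · exact h5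
      · exfalso
        apply h1
        have : k1 - 1 = i := by omega
        rw [this]
      · exfalso
        apply h3
        rw [h5]
    · have : i = n - 1 := by omega
      rw [this, ha.close]
      rcases hclose with h5 | h5
      · exact h5
      · exfalso
        apply h3
        rw [← h5, this]

/-- the conditions given by cyclic connectivity, for pairs over `U × Bool` -/
structure Cuts (P : Pr U) : Prop where
  /-- no digon -/
  digon : ∀ e, P.al e ≠ P.be e
  /-- no triangle -/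
  tri : ∀ e, e ≠ P.p0 → e ≠ P.al P.p0 → e ≠ P.q0 → e ≠ P.be P.q0 → mu (P.al e) ≠ P.be e
  /-- no cut formed by `e` and two further edges -/
  cut_b : ∀ (Y T T' : U × Bool → Prop) (u u' : U × Bool), (∀ v, Y v ↔ Y (mu v)) →
    (∀ v, Y v ↔ Y (P.al v)) →
    (∀ v, v ≠ u → v ≠ P.be u → v ≠ u' → v ≠ P.be u' → (Y v ↔ Y (P.be v))) →
    Y P.p0 → ¬ Y P.q0 → (∃ v, T v) → (∀ v, T v → Y v) → (∀ v, T v → T (mu v)) →
    (∀ v, T v → T (P.al v)) → (∃ v, T' v) → (∀ v, T' v → ¬ Y v) → (∀ v, T' v → T' (mu v)) →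
    (∀ v, T' v → T' (P.be v)) → False
  cut_a : ∀ (Y T T' : U × Bool → Prop) (u u' : U × Bool), (∀ v, Y v ↔ Y (mu v)) →
    (∀ v, Y v ↔ Y (P.be v)) →
    (∀ v, v ≠ u → v ≠ P.al u → v ≠ u' → v ≠ P.al u' → (Y v ↔ Y (P.al v))) →
    Y P.q0 → ¬ Y P.p0 → (∃ v, T v) → (∀ v, T v → Y v) → (∀ v, T v → T (mu v)) →
    (∀ v, T v → T (P.be v)) → (∃ v, T' v) → (∀ v, T' v → ¬ Y v) → (∀ v, T' v → T' (mu v)) →
    (∀ v, T' v → T' (P.al v)) → False

section

variable {P : Pr U} {r : ℕ} {ka kb : U × Bool → ℕ}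

/-- the elements of `C_1` on `C_0` lie in two gaps of the elements on `C_2` -/
lemma no_cut_b (hP : Cuts P) (h : Lev P r ka kb) (hr : 3 ≤ r) {n : ℕ} {b : ℕ → U × Bool}
    (hocc : ∀ u, occ n b u ↔ kb (u, true) = 1) (u u' : U × Bool) :
    ¬ ∀ v : U × Bool, occ n b v.1 → v ≠ u → v ≠ P.be u → v ≠ u' → v ≠ P.be u' →
      (ka v = 0 ↔ ka (P.be v) = 0) := by
  intro hv
  refine hP.cut_b (fun e => ka e = 0) (fun e => ka e = 0) (fun e => kb e = r) u u' ?_ ?_ ?_ h.p0 ?_
    ⟨P.p0, h.p0⟩ (fun _ h1 => h1) ?_ ?_ ⟨P.q0, h.q0⟩ ?_ ?_ ?_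
  · intro e; show ka e = 0 ↔ ka (mu e) = 0; rw [h.a_mu]
  · intro e; show ka e = 0 ↔ ka (P.al e) = 0; rw [h.a_al]
  · intro e h1 h2 h3 h4
    show ka e = 0 ↔ ka (P.be e) = 0
    by_cases h5 : kb e = 1
    · exact hv e ((hocc _).2 (by rw [h.kb_true]; exact h5)) h1 h2 h3 h4
    · have h6 : kb (P.be e) ≠ 1 := by rw [h.b_be]; exact h5
      have := h.step e
      have := h.step (P.be e)
      omega
  · show ¬ ka P.q0 = 0
    have := h.step P.q0
    have := h.q0
    omega
  · intro e he; show ka (mu e) = 0; rw [h.a_mu]; exact he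
  · intro e he; show ka (P.al e) = 0; rw [h.a_al]; exact he
  · intro e he
    have he' : kb e = r := he
    show ¬ ka e = 0
    have := h.step e
    omega
  · intro e he; show kb (mu e) = r; rw [h.b_mu]; exact he
  · intro e he; show kb (P.be e) = r; rw [h.b_be]; exact he

/-- the elements of `C_2` on `C_3` lie in two gaps of the elements on `C_1` -/
lemma no_cut_a (hP : Cuts P) (h : Lev P r ka kb) (hr : 3 ≤ r) {n : ℕ} {a : ℕ → U × Bool}
    (hocc : ∀ u, occ n a u ↔ ka (u, true) = 2) (u u' : U × Bool) :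
    ¬ ∀ v : U × Bool, occ n a v.1 → v ≠ u → v ≠ P.al u → v ≠ u' → v ≠ P.al u' →
      (kb v = 3 ↔ kb (P.al v) = 3) := by
  intro hv
  refine hP.cut_a (fun e => 3 ≤ kb e) (fun e => kb e = r) (fun e => ka e = 0) u u' ?_ ?_ ?_ ?_ ?_
    ⟨P.q0, h.q0⟩ ?_ ?_ ?_ ⟨P.p0, h.p0⟩ ?_ ?_ ?_
  · intro e; show 3 ≤ kb e ↔ 3 ≤ kb (mu e); rw [h.b_mu]
  · intro e; show 3 ≤ kb e ↔ 3 ≤ kb (P.be e); rw [h.b_be]
  · intro e h1 h2 h3 h4
    show 3 ≤ kb e ↔ 3 ≤ kb (P.al e)
    have hs := h.step e
    have hs' := h.step (P.al e)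
    have hk : ka (P.al e) = ka e := h.a_al e
    by_cases h5 : ka e = 2
    · have := hv e ((hocc _).2 (by rw [h.ka_true]; exact h5)) h1 h2 h3 h4
      omega
    · obtain ⟨x, hx⟩ := h.eva e
      omega
  · show 3 ≤ kb P.q0
    rw [h.q0]; exact hr
  · show ¬ 3 ≤ kb P.p0
    have := h.step P.p0
    have := h.p0
    omega
  · intro e he
    have he' : kb e = r := he
    show 3 ≤ kb e
    omega
  · intro e he; show kb (mu e) = r; rw [h.b_mu]; exact he
  · intro e he; show kb (P.be e) = r; rw [h.b_be]; exact he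
  · intro e he
    have he' : ka e = 0 := he
    show ¬ 3 ≤ kb e
    have := h.step e
    omega
  · intro e he; show ka (mu e) = 0; rw [h.a_mu]; exact he
  · intro e he; show ka (P.al e) = 0; rw [h.a_al]; exact he

end

end H21CK
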