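import Pool.Agent.H21.CK.Final

/-!
A chain with two circuits is the pair `P10` (project CP, MP_472c72).
-/

namespace H21CK

open Finset H48CP H13CP H59CP
open scoped Classical

variable {U : Type*}

private lemma cmp_of {a b c d : ℕ} (h : ¬ ((a < b ∧ d < c) ∨ (b < a ∧ c < d))) (h1 : a ≠ b) (h2 : c ≠ d) :
    (a < b ∧ c < d) ∨ (b < a ∧ d < c) := by
  rcases lt_or_gt_of_ne h1 with k1 | k1 <;> rcases lt_or_gt_of_ne h2 with k2 | k2
  · exact Or.inl ⟨k1, k2⟩
  · exact (h (Or.inl ⟨k1, k2⟩)).elim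
  · exact (h (Or.inr ⟨k1, k2⟩)).elim
  · exact Or.inr ⟨k1, k2⟩

private lemma chain4 {a b c d : ℕ} (h1 : a < b) (h2 : b < c) (h3 : c < d) (h4 : d < 4) :
    a = 0 ∧ b = 1 ∧ c = 2 ∧ d = 3 := by omega

/-- the two realizers of a path with four vertices, up to reversal of the labels -/
lemma p4_types {px ps pt py qx qs qt qy : ℕ} (h1 : px < 4 ∧ ps < 4 ∧ pt < 4 ∧ py < 4)
    (h2 : qx < 4 ∧ qs < 4 ∧ qt < 4 ∧ qy < 4)
    (d1 : px ≠ ps ∧ px ≠ pt ∧ px ≠ py ∧ ps ≠ pt ∧ ps ≠ py ∧ pt ≠ py)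
    (d2 : qx ≠ qs ∧ qx ≠ qt ∧ qx ≠ qy ∧ qs ≠ qt ∧ qs ≠ qy ∧ qt ≠ qy)
    (a1 : (px < ps ∧ qs < qx) ∨ (ps < px ∧ qx < qs))
    (a2 : (ps < pt ∧ qt < qs) ∨ (pt < ps ∧ qs < qt))
    (a3 : (pt < py ∧ qy < qt) ∨ (py < pt ∧ qt < qy))
    (n1 : ¬ ((px < pt ∧ qt < qx) ∨ (pt < px ∧ qx < qt)))
    (n2 : ¬ ((px < py ∧ qy < qx) ∨ (py < px ∧ qx < qy)))
    (n3 : ¬ ((ps < py ∧ qy < qs) ∨ (py < ps ∧ qs < qy))) (hlt : px < py) :
    (ps = 0 ∧ px = 1 ∧ py = 2 ∧ pt = 3 ∧ qx = 0 ∧ qt = 1 ∧ qs = 2 ∧ qy = 3) ∨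
    (px = 0 ∧ pt = 1 ∧ ps = 2 ∧ py = 3 ∧ qs = 0 ∧ qx = 1 ∧ qy = 2 ∧ qt = 3) := by
  obtain ⟨e1, e2, e3, e4, e5, e6⟩ := d1
  obtain ⟨f1, f2, f3, f4, f5, f6⟩ := d2
  have c1 := cmp_of n1 e2 f2
  have c2 := (cmp_of n2 e3 f3).resolve_right fun z => lt_asymm hlt z.1
  have c3 := cmp_of n3 e5 f5
  rcases a1 with a1 | a1 <;> rcases a2 with a2 | a2
  · rcases c1 with c1 | c1
    · exact (lt_irrefl _ ((c1.2.trans a2.2).trans a1.2)).elim
    · exact (lt_irrefl _ ((c1.1.trans a1.1).trans a2.1)).elim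
  · rcases a3 with a3 | a3
    · rcases c1 with c1 | c1
      · rcases c3 with c3 | c3
        · right
          obtain ⟨k1, k2, k3, k4⟩ := chain4 c1.1 a2.1 c3.1 h1.2.2.2
          obtain ⟨k5, k6, k7, k8⟩ := chain4 a1.2 c2.2 a3.2 h2.2.2.1
          exact ⟨k1, k2, k3, k4, k5, k6, k7, k8⟩
        · exact (lt_irrefl _ ((c3.2.trans a1.2).trans c2.2)).elim
      · exact (lt_irrefl _ ((c2.2.trans a3.2).trans c1.2)).elim
    · rcases c3 with c3 | c3
      · exact (lt_irrefl _ ((c3.1.trans a3.1).trans a2.1)).elim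
      · exact (lt_irrefl _ ((c3.2.trans a2.2).trans a3.2)).elim
  · rcases a3 with a3 | a3
    · rcases c3 with c3 | c3
      · exact (lt_irrefl _ ((c3.2.trans a3.2).trans a2.2)).elim
      · exact (lt_irrefl _ ((c3.1.trans a2.1).trans a3.1)).elim
    · rcases c1 with c1 | c1
      · rcases c3 with c3 | c3
        · left
          obtain ⟨k1, k2, k3, k4⟩ := chain4 a1.1 c2.1 a3.1 h1.2.2.1
          obtain ⟨k5, k6, k7, k8⟩ := chain4 c1.2 a2.2 c3.2 h2.2.2.2
          exact ⟨k1, k2, k3, k4, k5, k6, k7, k8⟩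
        · exact (lt_irrefl _ ((c3.1.trans a1.1).trans c2.1)).elim
      · exact (lt_irrefl _ ((c2.1.trans a3.1).trans c1.1)).elim
  · rcases c1 with c1 | c1
    · exact (lt_irrefl _ ((c1.1.trans a2.1).trans a1.1)).elim
    · exact (lt_irrefl _ ((c1.2.trans a1.2).trans a2.2)).elim

section

variable {P : Pr U} {r : ℕ} {ka kb : U × Bool → ℕ}

/-- the tables of `P10` -/
def Tables (P : Pr U) : Prop :=
  ∃ a b c d : U × Bool,
    (∀ e, e = a ∨ e = b ∨ e = c ∨ e = d ∨ e = mu a ∨ e = mu b ∨ e = mu c ∨ e = mu d) ∧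
    P.p0 = a ∧ P.al a = d ∧ P.al b = c ∧ P.be a = b ∧ P.be c = d ∧
    (P.q0 = mu b ∨ P.q0 = mu c) ∧ P.be (mu b) = mu c ∧ P.be (mu a) = mu d ∧
    P.al (mu b) = mu d ∧ P.al (mu a) = mu c

lemma tables_aux {n m : ℕ} {a b : ℕ → U × Bool} (ha : CutSeq P.al n a) (hb : CutSeq P.be m b)
    (ha0 : a 0 = P.p0) (hb0 : b 0 = P.q0) (hn : n = 4) (hm : m = 4)
    (hcase : (b 0 = a 1 ∧ b 1 = mu (a 3) ∧ b 2 = mu (a 0) ∧ b 3 = a 2) ∨
      (b 0 = mu (a 2) ∧ b 1 = a 0 ∧ b 2 = a 3 ∧ b 3 = mu (a 1)))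
    (hall : ∀ e : U × Bool, ∃ i, i < 4 ∧ (a i).1 = e.1) : Tables P := by
  subst hn
  subst hm
  have s0 := ha.step 0 (by omega)
  have s1 := ha.step 1 (by omega)
  have s2 := ha.step 2 (by omega)
  have s3 := ha.close
  have t0 := hb.step 0 (by omega)
  have t1 := hb.step 1 (by omega)
  have t2 := hb.step 2 (by omega)
  have t3 := hb.close
  simp only [Nat.reduceAdd, Nat.reduceSub, zero_add] at s0 s1 s2 s3 t0 t1 t2 t3
  have inv : ∀ {e f : U × Bool}, P.al e = f → P.al f = e := fun h => by rw [← h, P.al2]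
  have invb : ∀ {e f : U × Bool}, P.be e = f → P.be f = e := fun h => by rw [← h, P.be2]
  refine ⟨a 0, a 2, mu (a 1), mu (a 3), ?_, ha0.symm, inv s3, inv s1, ?_, ?_, ?_, ?_, ?_, ?_, ?_⟩
  · intro e
    obtain ⟨i, hi, h1⟩ := hall e
    have h2 := eq_or_mu h1.symm
    rw [mu_mu, mu_mu]
    have h3 : i = 0 ∨ i = 1 ∨ i = 2 ∨ i = 3 := by omega
    rcases h3 with rfl | rfl | rfl | rfl <;> tauto
  · rcases hcase with ⟨h0, h1, h2, h3⟩ | ⟨h0, h1, h2, h3⟩
    · rw [h2, h3, mu_mu] at t2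
      exact t2
    · rw [h0, h1, mu_mu] at t0
      exact invb t0
  · rcases hcase with ⟨h0, h1, h2, h3⟩ | ⟨h0, h1, h2, h3⟩
    · rw [h0, h1] at t0
      exact t0
    · rw [h2, h3] at t2
      exact invb t2
  · rcases hcase with ⟨h0, h1, h2, h3⟩ | ⟨h0, h1, h2, h3⟩
    · right
      rw [mu_mu, ← hb0, h0]
    · left
      rw [← hb0, h0]
  · rw [mu_mu]
    rcases hcase with ⟨h0, h1, h2, h3⟩ | ⟨h0, h1, h2, h3⟩
    · rw [h3, h0] at t3
      exact t3
    · rw [h3, h0, mu_mu] at t3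
      exact invb t3
  · rw [mu_mu]
    rcases hcase with ⟨h0, h1, h2, h3⟩ | ⟨h0, h1, h2, h3⟩
    · rw [h1, h2, mu_mu] at t1
      exact invb t1
    · rw [h1, h2] at t1
      exact t1
  · rw [mu_mu]
    exact s2
  · rw [mu_mu]
    exact s0

/-- a chain with two circuits is the pair `P10` -/
theorem tables_of_r1 [Fintype U] (hC : P.Crit) (hP : Cuts P) (h : Lev P r ka kb) (hr : r < 3) :
    Tables P := by
  have hr1 : r = 1 := by
    obtain ⟨x, hx⟩ := h.odr
    omega
  subst hr1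
  have kaa : ∀ e, ka e = 0 := by
    intro e
    obtain ⟨x, hx⟩ := h.eva e
    have := h.lea e
    omega
  have kbb : ∀ e, kb e = 1 := by
    intro e
    obtain ⟨x, hx⟩ := h.odb e
    have := h.leb e
    omega
  obtain ⟨n, a, ha, ha0, hoa⟩ := h.seqa P.p0
  obtain ⟨m, b, hb, hb0, hob⟩ := h.seqb P.q0
  rw [h.p0] at hoa
  rw [h.q0] at hob
  have oa : ∀ u, occ n a u := fun u => (hoa u).2 (kaa _)
  have ob : ∀ u, occ m b u := fun u => (hob u).2 (kbb _)
  have hCom : Com n a m b (univ : Finset U) := fun u =>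
    ⟨fun _ => ⟨oa u, ob u⟩, fun _ => mem_univ _⟩
  have hM := h.mark ha hb (i := 0) (j := 1) hoa hob
    (Or.inl ⟨rfl, Or.inl ⟨rfl, Or.inl ha0⟩⟩) (Or.inl ⟨rfl, Or.inl ⟨rfl, Or.inl hb0⟩⟩) hCom
  have hAx := (hon_of_crit hC hM ha hb hCom).ax
  have hlastA : n - 1 < n := Nat.sub_lt ha.pos one_pos
  have hlastB : m - 1 < m := Nat.sub_lt hb.pos one_pos
  have hA : Side P.al n a univ {0} (fun e => e = P.p0 ∨ e = P.al P.p0) := by
    refine ⟨ha, fun u _ => oa u, ?_, fun k _ _ => mem_univ _, ?_⟩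
    · intro c hc
      rw [mem_singleton] at hc
      have := ha.pos
      omega
    · intro k hk hkQ h2
      have hk0 : k ≠ 0 := by
        rintro rfl
        exact hkQ (by simp)
      have hal0 : mu (a (n - 1)) = P.al P.p0 := by
        have := ha.close
        rw [ha0] at this
        rw [← this, P.al2]
      rcases h2 with h2 | h2
      · rw [← ha0] at h2
        exact hk0 (ha.inj _ _ hk ha.pos (by rw [h2]))
      · rw [← hal0] at h2
        have h3 : k = n - 1 := ha.inj _ _ hk hlastA (by rw [h2, mu_fst])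
        rw [h3] at h2
        exact mu_ne _ h2.symm
  have hB : Side P.be m b univ {0} (fun e => e = P.q0 ∨ e = P.be P.q0) := by
    refine ⟨hb, fun u _ => ob u, ?_, fun k _ _ => mem_univ _, ?_⟩
    · intro c hc
      rw [mem_singleton] at hc
      have := hb.pos
      omega
    · intro k hk hkQ h2
      have hk0 : k ≠ 0 := by
        rintro rfl
        exact hkQ (by simp)
      have hal0 : mu (b (m - 1)) = P.be P.q0 := by
        have := hb.close
        rw [hb0] at this
        rw [← this, P.be2]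
      rcases h2 with h2 | h2
      · rw [← hb0] at h2
        exact hk0 (hb.inj _ _ hk hb.pos (by rw [h2]))
      · rw [← hal0] at h2
        have h3 : k = m - 1 := hb.inj _ _ hk hlastB (by rw [h2, mu_fst])
        rw [h3] at h2
        exact mu_ne _ h2.symm
  have hInj : (sdo n a m b).Inj (univ : Finset U) := by
    constructor
    · intro u _ v _ huv
      have huv' : (posn n a u : ℤ) = posn n a v := huv
      exact posn_inj (oa u) (oa v) (by exact_mod_cast huv')
    · intro u _ v _ huv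
      have huv' : (posn m b u : ℤ) = posn m b v := huv
      exact posn_inj (ob u) (ob v) (by exact_mod_cast huv')
  have hcard : 2 ≤ (univ : Finset U).card := by
    by_contra hlt
    have h1 : Fintype.card U ≤ 1 := by
      rw [← card_univ]
      omega
    have h2 : ∀ u v : U, u = v := fun u v => Fintype.card_le_one_iff.1 h1 u v
    have h3 : P.al P.p0 = mu P.p0 := (eq_or_mu (h2 _ _)).resolve_left (P.al1 _)
    have h4 : P.be P.p0 = mu P.p0 := (eq_or_mu (h2 _ _)).resolve_left (P.be1 _)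
    exact hP.digon _ (h3.trans h4.symm)
  have e0 : ∀ u, (rot (sdo n a m b) n m 0 0).p u = (sdo n a m b).p u := by
    intro u
    show (if (posn n a u : ℤ) < 0 then (posn n a u : ℤ) + n else posn n a u) = (posn n a u : ℤ)
    rw [if_neg (by omega)]
  have e1 : ∀ u, (rot (sdo n a m b) n m 0 0).q u = (sdo n a m b).q u := by
    intro u
    show (if (posn m b u : ℤ) < 0 then (posn m b u : ℤ) + m else posn m b u) = (posn m b u : ℤ)
    rw [if_neg (by omega)]
  have eadj : ∀ u v, (rot (sdo n a m b) n m 0 0).G.adj u v ↔ (sdo n a m b).G.adj u v := by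
    intro u v
    show (((rot (sdo n a m b) n m 0 0).p u < (rot (sdo n a m b) n m 0 0).p v ∧
      (rot (sdo n a m b) n m 0 0).q v < (rot (sdo n a m b) n m 0 0).q u) ∨
      ((rot (sdo n a m b) n m 0 0).p v < (rot (sdo n a m b) n m 0 0).p u ∧
      (rot (sdo n a m b) n m 0 0).q u < (rot (sdo n a m b) n m 0 0).q v)) ↔ _
    rw [e0, e0, e1, e1]
    rfl
  rcases Sdo.leaf_or_P4 hInj hAx hcard with ⟨u, v, hL⟩ | ⟨x, s, t, y, hmem, hP4, sx, ss, st, sy⟩
  · exfalso
    have hL' : LeafPair (rot (sdo n a m b) n m 0 0) univ u v := by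
      refine ⟨hL.ha, hL.hb, hL.ne, ?_, ?_, ?_⟩
      · intro w hw
        have := hL.np w hw
        rw [e0, e0, e0]
        tauto
      · intro w hw
        have := hL.nq w hw
        rw [e1, e1, e1]
        tauto
      · have h1 := hL.sgn
        have h2 : (rot (sdo n a m b) n m 0 0).sg u ↔ (sdo n a m b).sg u := Iff.rfl
        have h3 : (rot (sdo n a m b) n m 0 0).sg v ↔ (sdo n a m b).sg v := Iff.rfl
        rw [h2, h3, eadj]
        tauto
    rcases leafless_of hP hA hB 0 (mem_singleton_self _) 0 (mem_singleton_self _) u v hL' with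
      ⟨c, hc, h1⟩ | ⟨d, hd, h1⟩
    · rw [mem_singleton] at hc
      subst hc
      exact h1 Iff.rfl
    · rw [mem_singleton] at hd
      subst hd
      exact h1 Iff.rfl
  · -- four elements
    have wl : ∀ x s t y : U, (∀ v, v ∈ (univ : Finset U) ↔ v = x ∨ v = s ∨ v = t ∨ v = y) →
        (sdo n a m b).G.P4 x s t y → ¬ (sdo n a m b).sg x → (sdo n a m b).sg s →
        (sdo n a m b).sg t → ¬ (sdo n a m b).sg y → posn n a x < posn n a y → Tables P := by
      intro x s t y hmem hP4 sx ss st sy hlt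
      have n1 : x ≠ s := SG.adj_ne hP4.1
      have n2 : x ≠ t := hP4.ne1
      have n3 : x ≠ y := hP4.ne2
      have n4 : s ≠ t := SG.adj_ne hP4.2.1
      have n5 : s ≠ y := hP4.ne3
      have n6 : t ≠ y := SG.adj_ne hP4.2.2.1
      have hU : (univ : Finset U) = {x, s, t, y} := by
        ext v
        rw [hmem v]
        simp
      have hcU : Fintype.card U = 4 := by
        rw [← card_univ, hU, card_insert_of_notMem (by simp [n1, n2, n3]),
          card_insert_of_notMem (by simp [n4, n5]), card_insert_of_notMem (by simp [n6]),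
          card_singleton]
      have lenA : n = 4 := by
        rw [← hcU]
        have hinj : Function.Injective fun i : Fin n => (a i).1 := fun i j hij =>
          Fin.ext (ha.inj _ _ i.2 j.2 hij)
        have hsur : Function.Surjective fun i : Fin n => (a i).1 := fun u => by
          obtain ⟨i, hi, hu⟩ := oa u
          exact ⟨⟨i, hi⟩, hu⟩
        have := Fintype.card_of_bijective ⟨hinj, hsur⟩
        rwa [Fintype.card_fin] at this
      have lenB : m = 4 := by
        rw [← hcU]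
        have hinj : Function.Injective fun i : Fin m => (b i).1 := fun i j hij =>
          Fin.ext (hb.inj _ _ i.2 j.2 hij)
        have hsur : Function.Surjective fun i : Fin m => (b i).1 := fun u => by
          obtain ⟨i, hi, hu⟩ := ob u
          exact ⟨⟨i, hi⟩, hu⟩
        have := Fintype.card_of_bijective ⟨hinj, hsur⟩
        rwa [Fintype.card_fin] at this
      have ltA : ∀ u, posn n a u < 4 := fun u => lenA ▸ (posn_spec (oa u)).1
      have ltB : ∀ u, posn m b u < 4 := fun u => lenB ▸ (posn_spec (ob u)).1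
      have neA : ∀ {u v : U}, u ≠ v → posn n a u ≠ posn n a v := fun huv h1 =>
        huv (posn_inj (oa _) (oa _) h1)
      have neB : ∀ {u v : U}, u ≠ v → posn m b u ≠ posn m b v := fun huv h1 =>
        huv (posn_inj (ob _) (ob _) h1)
      obtain ⟨g1, g2, g3, g4, g5, g6⟩ := hP4
      rw [sdo_adj] at g1 g2 g3 g4 g5 g6
      have hty := p4_types ⟨ltA x, ltA s, ltA t, ltA y⟩ ⟨ltB x, ltB s, ltB t, ltB y⟩
        ⟨neA n1, neA n2, neA n3, neA n4, neA n5, neA n6⟩
        ⟨neB n1, neB n2, neB n3, neB n4, neB n5, neB n6⟩ g1 g2 g3 g4 g5 g6 hlt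
      have pl : ∀ u, ¬ (sdo n a m b).sg u → b (posn m b u) = a (posn n a u) := by
        intro u hu
        have h1 : ¬ (a (posn n a u) ≠ b (posn m b u)) := hu
        exact (not_not.1 h1).symm
      have mi : ∀ u, (sdo n a m b).sg u → b (posn m b u) = mu (a (posn n a u)) := by
        intro u hu
        have h1 : a (posn n a u) ≠ b (posn m b u) := hu
        exact (eq_or_mu (by rw [(posn_spec (oa u)).2, (posn_spec (ob u)).2])).resolve_left
          (fun h2 => h1 h2.symm)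
      have kx := pl x sx
      have ky := pl y sy
      have ks := mi s ss
      have kt := mi t st
      refine tables_aux ha hb ha0 hb0 lenA lenB ?_ ?_
      · rcases hty with ⟨c1, c2, c3, c4, c5, c6, c7, c8⟩ | ⟨c1, c2, c3, c4, c5, c6, c7, c8⟩
        · left
          rw [c2, c5] at kx
          rw [c3, c8] at ky
          rw [c1, c7] at ks
          rw [c4, c6] at kt
          exact ⟨kx, kt, ks, ky⟩
        · right
          rw [c1, c6] at kx
          rw [c4, c7] at ky
          rw [c3, c5] at ks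
          rw [c2, c8] at kt
          exact ⟨ks, kx, ky, kt⟩
      · intro e
        obtain ⟨i, hi, h1⟩ := oa e.1
        exact ⟨i, lenA ▸ hi, h1⟩
    have n3 : x ≠ y := hP4.ne2
    rcases lt_or_gt_of_ne (fun h1 => n3 (posn_inj (oa x) (oa y) h1) :
      posn n a x ≠ posn n a y) with h1 | h1
    · exact wl x s t y hmem hP4 sx ss st sy h1
    · exact wl y t s x (fun v => by rw [hmem v]; tauto) hP4.symm sy st ss sx h1

/-- a critical pair without small cuts is `P10` -/
theorem seq_main [Finite U] (P : Pr U) (hC : P.Crit)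
    (hNB : ∀ Y : U × Bool → ZMod 2, (∀ e, Y (P.al e) = Y e) →
      (∀ e, Y (P.be e) = Y e) → (∀ e, Y (mu e) = Y e) → Y P.p0 = Y P.q0) (hP : Cuts P) :
    Tables P := by
  cases nonempty_fintype U
  obtain ⟨r, ka, kb, h⟩ := exists_lev hC hNB
  exact tables_of_r1 hC hP h (r_lt hC hP h)

end

end H21CK
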