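import Pool.Agent.H21.CK.Gaps
import Pool.Agent.H21.CK.Defs

/-!
Two members of a chain as cyclic orders with marks (project CP, MP_472c72).
-/

namespace H21CK

open Finset H48CP
open scoped Classical

variable {U : Type*}

section

variable {P : Pr U}

/-- an adjacent reducible pair is a digon or a triangle -/
lemma leaf_dt (hP : Cuts P) {eu ev fu fv : U × Bool} (hu : fu = eu ∨ fu = mu eu)
    (hv : fv = ev ∨ fv = mu ev) (hal : P.al (mu eu) = ev)
    (hx : ev ≠ P.p0 ∧ ev ≠ P.al P.p0) :
    (P.be (mu fu) = fv → fv ≠ P.q0 → fv ≠ P.be P.q0 → ¬ (fu = eu ∨ fv = ev)) ∧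
    (P.be (mu fv) = fu → fu ≠ P.q0 → fu ≠ P.be P.q0 → ¬ (fu ≠ eu ∨ fv ≠ ev)) := by
  have hx' : mu eu ≠ P.p0 ∧ mu eu ≠ P.al P.p0 := by
    constructor
    · intro h; apply hx.2; rw [← hal, h]
    · intro h; apply hx.1; rw [← hal, h, P.al2]
  have hlv : P.al ev = mu eu := by rw [← hal, P.al2]
  have oth : ∀ {e f : U × Bool}, P.be e = f → f ≠ P.q0 → f ≠ P.be P.q0 →
      e ≠ P.q0 ∧ e ≠ P.be P.q0 := by
    intro e f h1 h2 h3
    constructor
    · intro h; apply h3; rw [← h1, h]
    · intro h; apply h2; rw [← h1, h, P.be2]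
  have tri1 : mu eu ≠ P.q0 → mu eu ≠ P.be P.q0 → mu (P.al (mu eu)) ≠ P.be (mu eu) :=
    fun h1 h2 => hP.tri _ hx'.1 hx'.2 h1 h2
  have tri2 : ev ≠ P.q0 → ev ≠ P.be P.q0 → mu (P.al ev) ≠ P.be ev :=
    fun h1 h2 => hP.tri _ hx.1 hx.2 h1 h2
  rw [hal] at tri1
  rw [hlv, mu_mu] at tri2
  have dig1 : P.al (mu eu) ≠ P.be (mu eu) := hP.digon _
  rw [hal] at dig1
  constructor
  · intro h1 g1 g2 h2
    have g3 := oth h1 g1 g2
    rcases hu with hu | hu <;> rcases hv with hv | hv
    · rw [hu, hv] at h1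
      exact dig1 h1.symm
    · rw [hu] at h1 g3
      rw [hv] at h1
      exact tri1 g3.1 g3.2 h1.symm
    · rw [hu, hv, mu_mu] at h1
      rw [hv] at g1 g2
      apply tri2 g1 g2
      rw [← h1, P.be2]
    · rcases h2 with h2 | h2
      · rw [hu] at h2
        exact mu_ne _ h2
      · rw [hv] at h2
        exact mu_ne _ h2
  · intro h1 g1 g2 h2
    have g3 := oth h1 g1 g2
    rcases hu with hu | hu <;> rcases hv with hv | hv
    · rcases h2 with h2 | h2
      · exact h2 hu
      · exact h2 hv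
    · rw [hv, mu_mu] at h1 g3
      rw [hu] at h1
      exact tri2 g3.1 g3.2 h1.symm
    · rw [hu] at h1 g1 g2
      rw [hv] at h1
      apply tri1 g1 g2
      rw [← h1, P.be2]
    · rw [hu, hv, mu_mu] at h1
      apply dig1
      rw [← h1, P.be2]

end

/-- positions in a cut cyclic order -/
lemma rot_step {n p t c : ℤ} (hp : 0 ≤ p ∧ p < n) (ht : 0 ≤ t ∧ t < n) (hc : 0 ≤ c ∧ c < n)
    (hlt : (if p < c then p + n else p) < if t < c then t + n else t)
    (hne : ¬ (t = p + 1 ∨ (p = n - 1 ∧ t = 0))) :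
    ∃ k, 0 ≤ k ∧ k < n ∧ (k = p + 1 ∨ (p = n - 1 ∧ k = 0)) ∧
      (if p < c then p + n else p) < (if k < c then k + n else k) ∧
      (if k < c then k + n else k) < (if t < c then t + n else t) ∧
      ¬ ((if p < c then p + n else p) < (if t < c then t + n else t) ↔
        (if p < k then p + n else p) < (if t < k then t + n else t)) := by
  by_cases h : p = n - 1
  · refine ⟨0, by omega, by omega, Or.inr ⟨h, rfl⟩, ?_, ?_, ?_⟩ <;> split_ifs at * <;> omega
  · refine ⟨p + 1, by omega, by omega, Or.inl rfl, ?_, ?_, ?_⟩ <;> split_ifs at * <;> omega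

/-- one side of a pair of consecutive members: a cut circuit with its marked positions -/
structure Side (σ : U × Bool → U × Bool) (n : ℕ) (a : ℕ → U × Bool) (S : Finset U) (Q : Finset ℤ)
    (E : U × Bool → Prop) : Prop where
  seq : CutSeq σ n a
  occ : ∀ u ∈ S, occ n a u
  hQ : ∀ c ∈ Q, 0 ≤ c ∧ c < n
  mem : ∀ k : ℕ, k < n → (k : ℤ) ∉ Q → (a k).1 ∈ S
  off : ∀ k : ℕ, k < n → (k : ℤ) ∉ Q → ¬ E (a k)

lemma Side.step {σ : U × Bool → U × Bool} {n : ℕ} {a : ℕ → U × Bool} {S : Finset U}
    {Q : Finset ℤ} {E : U × Bool → Prop} (h : Side σ n a S Q E) {u v : U} (hu : u ∈ S)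
    (hv : v ∈ S) {c : ℤ} (hc : c ∈ Q)
    (hlt : (if (posn n a u : ℤ) < c then (posn n a u : ℤ) + n else posn n a u) <
      if (posn n a v : ℤ) < c then (posn n a v : ℤ) + n else posn n a v)
    (hno : ∀ w ∈ S, ¬ ((if (posn n a u : ℤ) < c then (posn n a u : ℤ) + n else posn n a u) <
        (if (posn n a w : ℤ) < c then (posn n a w : ℤ) + n else posn n a w) ∧
      (if (posn n a w : ℤ) < c then (posn n a w : ℤ) + n else posn n a w) <
        (if (posn n a v : ℤ) < c then (posn n a v : ℤ) + n else posn n a v)))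
    (hsep : ∀ c' ∈ Q, ((if (posn n a u : ℤ) < c then (posn n a u : ℤ) + n else posn n a u) <
        (if (posn n a v : ℤ) < c then (posn n a v : ℤ) + n else posn n a v) ↔
      (if (posn n a u : ℤ) < c' then (posn n a u : ℤ) + n else posn n a u) <
        (if (posn n a v : ℤ) < c' then (posn n a v : ℤ) + n else posn n a v))) :
    σ (mu (a (posn n a u))) = a (posn n a v) ∧ ¬ E (a (posn n a v)) := by
  obtain ⟨pu, -⟩ := posn_spec (h.occ u hu)
  obtain ⟨pv, -⟩ := posn_spec (h.occ v hv)
  have hcQ := h.hQ c hc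
  have hadj : (posn n a v : ℤ) = posn n a u + 1 ∨ ((posn n a u : ℤ) = n - 1 ∧
      (posn n a v : ℤ) = 0) := by
    by_contra hcon
    obtain ⟨k, h1, h2, h3, h4, h5, h6⟩ := rot_step (p := posn n a u) (t := posn n a v) (n := n)
      (c := c) ⟨by omega, by omega⟩ ⟨by omega, by omega⟩ hcQ hlt hcon
    by_cases hk : k ∈ Q
    · exact h6 (hsep k hk)
    · obtain ⟨k', rfl⟩ := Int.eq_ofNat_of_zero_le h1
      have hk' : k' < n := by omega
      have hS := h.mem k' hk' hk
      have hpos := posn_of h.seq hk' (rfl : (a k').1 = (a k').1)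
      apply hno _ hS
      rw [hpos]
      exact ⟨h4, h5⟩
  have hvQ : (posn n a v : ℤ) ∉ Q := by
    intro hvQ
    have h1 := hsep _ hvQ
    have h2 := h1.1 hlt
    have : (posn n a v : ℤ) < n := by omega
    split_ifs at h2 <;> omega
  refine ⟨?_, h.off _ pv hvQ⟩
  rcases hadj with h1 | ⟨h1, h2⟩
  · have h3 : posn n a v = posn n a u + 1 := by omega
    rw [h3]
    exact h.seq.step _ (by omega)
  · have h3 : posn n a v = 0 := by omega
    have h4 : posn n a u = n - 1 := by omega
    rw [h3, h4]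
    exact h.seq.close

/-- the leafless condition of `Cyc` -/
theorem leafless_of {P : Pr U} (hP : Cuts P) {n m : ℕ} {a b : ℕ → U × Bool} {S : Finset U}
    {QA QB : Finset ℤ} (hA : Side P.al n a S QA (fun e => e = P.p0 ∨ e = P.al P.p0))
    (hB : Side P.be m b S QB (fun e => e = P.q0 ∨ e = P.be P.q0)) :
    ∀ c ∈ QA, ∀ d ∈ QB, ∀ u v, LeafPair (rot (sdo n a m b) n m c d) S u v →
    (∃ c' ∈ QA, ¬ ((rot (sdo n a m b) n m c d).p u < (rot (sdo n a m b) n m c d).p v ↔
      (rot (sdo n a m b) n m c' d).p u < (rot (sdo n a m b) n m c' d).p v)) ∨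
    (∃ d' ∈ QB, ¬ ((rot (sdo n a m b) n m c d).q u < (rot (sdo n a m b) n m c d).q v ↔
      (rot (sdo n a m b) n m c d').q u < (rot (sdo n a m b) n m c d').q v)) := by
  have main : ∀ c ∈ QA, ∀ d ∈ QB, ∀ u v, LeafPair (rot (sdo n a m b) n m c d) S u v →
      (rot (sdo n a m b) n m c d).p u < (rot (sdo n a m b) n m c d).p v →
    (∃ c' ∈ QA, ¬ ((rot (sdo n a m b) n m c d).p u < (rot (sdo n a m b) n m c d).p v ↔
      (rot (sdo n a m b) n m c' d).p u < (rot (sdo n a m b) n m c' d).p v)) ∨
    (∃ d' ∈ QB, ¬ ((rot (sdo n a m b) n m c d).q u < (rot (sdo n a m b) n m c d).q v ↔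
      (rot (sdo n a m b) n m c d').q u < (rot (sdo n a m b) n m c d').q v)) := by
    intro c hc d hd u v hL hlt
    by_contra hcon
    push Not at hcon
    obtain ⟨hcA, hcB⟩ := hcon
    have hsA := hA.step hL.ha hL.hb hc hlt (fun w hw => (hL.cp w hw).1) hcA
    obtain ⟨pu, pu'⟩ := posn_spec (hA.occ u hL.ha)
    obtain ⟨pv, pv'⟩ := posn_spec (hA.occ v hL.hb)
    obtain ⟨qu, qu'⟩ := posn_spec (hB.occ u hL.ha)
    obtain ⟨qv, qv'⟩ := posn_spec (hB.occ v hL.hb)
    have hfu : b (posn m b u) = a (posn n a u) ∨ b (posn m b u) = mu (a (posn n a u)) :=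
      eq_or_mu (by rw [qu', pu'])
    have hfv : b (posn m b v) = a (posn n a v) ∨ b (posn m b v) = mu (a (posn n a v)) :=
      eq_or_mu (by rw [qv', pv'])
    have key := leaf_dt hP hfu hfv hsA.1 ⟨fun h => hsA.2 (Or.inl h), fun h => hsA.2 (Or.inr h)⟩
    have sgu : (rot (sdo n a m b) n m c d).sg u ↔ a (posn n a u) ≠ b (posn m b u) := Iff.rfl
    have sgv : (rot (sdo n a m b) n m c d).sg v ↔ a (posn n a v) ≠ b (posn m b v) := Iff.rfl
    have hred := hL.red
    rw [sgu, sgv] at hred
    rcases lt_trichotomy ((rot (sdo n a m b) n m c d).q u) ((rot (sdo n a m b) n m c d).q v)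
      with h1 | h1 | h1
    · -- same order
      have hsB := hB.step hL.ha hL.hb hd h1 (fun w hw => (hL.cq w hw).1) hcB
      have hnadj : ¬ (rot (sdo n a m b) n m c d).G.adj u v := by
        rintro (⟨-, h2⟩ | ⟨h2, -⟩)
        · exact lt_asymm h1 h2
        · exact lt_asymm hlt h2
      rcases hred with ⟨h2, -⟩ | ⟨-, h2⟩
      · exact hnadj h2
      · apply key.1 hsB.1 (fun h => hsB.2 (Or.inl h)) (fun h => hsB.2 (Or.inr h))
        rcases h2 with h2 | h2
        · exact Or.inl (not_not.1 h2).symm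
        · exact Or.inr (not_not.1 h2).symm
    · -- equal positions
      have h2 : posn m b u = posn m b v := by
        have h3 : (if (posn m b u : ℤ) < d then (posn m b u : ℤ) + m else posn m b u) =
          if (posn m b v : ℤ) < d then (posn m b v : ℤ) + m else posn m b v := h1
        have := hB.hQ d hd
        split_ifs at h3 <;> omega
      exact hL.ne (by rw [← qu', ← qv', h2])
    · -- opposite order
      have hsB := hB.step hL.hb hL.ha hd h1 (fun w hw => (hL.cq w hw).2) (by
        intro d' hd'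
        have h2 := hcB d' hd'
        have hne : (rot (sdo n a m b) n m c d').q v ≠ (rot (sdo n a m b) n m c d').q u := by
          intro h3
          have h4 : (if (posn m b v : ℤ) < d' then (posn m b v : ℤ) + m else posn m b v) =
            if (posn m b u : ℤ) < d' then (posn m b u : ℤ) + m else posn m b u := h3
          have := hB.hQ d' hd'
          have h5 : posn m b u = posn m b v := by split_ifs at h4 <;> omega
          exact hL.ne (by rw [← qu', ← qv', h5])
        constructor
        · intro _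
          rcases lt_or_gt_of_ne hne with h3 | h3
          · exact h3
          · exact absurd (h2.2 h3) (lt_asymm h1)
        · intro _
          exact h1)
      have hadj : (rot (sdo n a m b) n m c d).G.adj u v := Or.inl ⟨hlt, h1⟩
      rcases hred with ⟨-, h2⟩ | ⟨h2, -⟩
      · apply key.2 hsB.1 (fun h => hsB.2 (Or.inl h)) (fun h => hsB.2 (Or.inr h))
        rcases h2 with h2 | h2
        · exact Or.inl h2.symm
        · exact Or.inr h2.symm
      · exact h2 hadj
  intro c hc d hd u v hL
  rcases lt_trichotomy ((rot (sdo n a m b) n m c d).p u) ((rot (sdo n a m b) n m c d).p v)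
    with h1 | h1 | h1
  · exact main c hc d hd u v hL h1
  · exfalso
    obtain ⟨pu, pu'⟩ := posn_spec (hA.occ u hL.ha)
    obtain ⟨pv, pv'⟩ := posn_spec (hA.occ v hL.hb)
    have h3 : (if (posn n a u : ℤ) < c then (posn n a u : ℤ) + n else posn n a u) =
          if (posn n a v : ℤ) < c then (posn n a v : ℤ) + n else posn n a v := h1
    have := hA.hQ c hc
    have h2 : posn n a u = posn n a v := by split_ifs at h3 <;> omega
    exact hL.ne (by rw [← pu', ← pv', h2])
  · have hL' : LeafPair (rot (sdo n a m b) n m c d) S v u := by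
      refine ⟨hL.hb, hL.ha, hL.ne.symm, fun w hw => ⟨(hL.cp w hw).2, (hL.cp w hw).1⟩,
        fun w hw => ⟨(hL.cq w hw).2, (hL.cq w hw).1⟩, ?_⟩
      have hsym : (rot (sdo n a m b) n m c d).G.adj u v ↔
          (rot (sdo n a m b) n m c d).G.adj v u :=
        ⟨fun h => SG.symm _ h, fun h => SG.symm _ h⟩
      have := hL.red
      rw [hsym] at this
      tauto
    have hpu := posn_spec (hA.occ u hL.ha)
    have hpv := posn_spec (hA.occ v hL.hb)
    have hqu := posn_spec (hB.occ u hL.ha)
    have hqv := posn_spec (hB.occ v hL.hb)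
    have neP : ∀ c' ∈ QA, (rot (sdo n a m b) n m c' d).p u ≠ (rot (sdo n a m b) n m c' d).p v := by
      intro c' hc' h3
      have h4 : (if (posn n a u : ℤ) < c' then (posn n a u : ℤ) + n else posn n a u) =
          if (posn n a v : ℤ) < c' then (posn n a v : ℤ) + n else posn n a v := h3
      have := hA.hQ c' hc'
      have h5 : posn n a u = posn n a v := by split_ifs at h4 <;> omega
      exact hL.ne (by rw [← hpu.2, ← hpv.2, h5])
    have neQ : ∀ d' ∈ QB, (rot (sdo n a m b) n m c d').q u ≠ (rot (sdo n a m b) n m c d').q v := by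
      intro c' hc' h3
      have h4 : (if (posn m b u : ℤ) < c' then (posn m b u : ℤ) + m else posn m b u) =
          if (posn m b v : ℤ) < c' then (posn m b v : ℤ) + m else posn m b v := h3
      have := hB.hQ c' hc'
      have h5 : posn m b u = posn m b v := by split_ifs at h4 <;> omega
      exact hL.ne (by rw [← hqu.2, ← hqv.2, h5])
    rcases main c hc d hd v u hL' h1 with ⟨c', hc', h2⟩ | ⟨d', hd', h2⟩
    · refine Or.inl ⟨c', hc', fun h3 => h2 ?_⟩
      have n1 := neP c hc
      have n2 := neP c' hc'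
      constructor
      · intro _
        rcases lt_or_gt_of_ne n2 with h4 | h4
        · exact absurd (h3.2 h4) (lt_asymm h1)
        · exact h4
      · intro _
        exact h1
    · refine Or.inr ⟨d', hd', fun h3 => h2 ?_⟩
      have n1 := neQ d hd
      have n2 := neQ d' hd'
      constructor
      · intro h5
        rcases lt_or_gt_of_ne n2 with h4 | h4
        · exact absurd (h3.2 h4) (lt_asymm h5)
        · exact h4
      · intro h5
        rcases lt_or_gt_of_ne n1 with h4 | h4
        · exact absurd (h3.1 h4) (lt_asymm h5)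
        · exact h4

end H21CK
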